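import Mathlib

/-!
Smooth functions that vanish to infinite order at `0`, of the form `t ↦ exp (E (1/t))`.
-/

namespace Pool.Agent.H368Z.Flat

open Filter Topology Set
open scoped ContDiff

/-- extension by zero of `G (1/t)`. -/
noncomputable def ext (G : ℝ → ℝ) (t : ℝ) : ℝ := if 0 < t then G t⁻¹ else 0

lemma ext_pos (G : ℝ → ℝ) {t : ℝ} (ht : 0 < t) : ext G t = G t⁻¹ := if_pos ht

lemma ext_nonpos (G : ℝ → ℝ) {t : ℝ} (ht : t ≤ 0) : ext G t = 0 := if_neg (not_lt.mpr ht)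

lemma hasDerivAt_ext_pos {G G' : ℝ → ℝ} (hG : ∀ x, HasDerivAt G (G' x) x) {t : ℝ} (ht : 0 < t) :
    HasDerivAt (ext G) (-(t⁻¹) ^ 2 * G' t⁻¹) t := by
  have h1 : HasDerivAt (fun s : ℝ => G s⁻¹) (G' t⁻¹ * (-(t ^ 2)⁻¹)) t :=
    (hG t⁻¹).comp t (hasDerivAt_inv ht.ne')
  have h2 : (ext G) =ᶠ[𝓝 t] fun s : ℝ => G s⁻¹ := by
    filter_upwards [lt_mem_nhds ht] with s hs using ext_pos G hs
  have := h1.congr_of_eventuallyEq h2
  have e : -(t⁻¹) ^ 2 * G' t⁻¹ = G' t⁻¹ * (-(t ^ 2)⁻¹) := by rw [inv_pow]; ring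
  rw [e]; exact this

lemma hasDerivAt_ext {G G' : ℝ → ℝ} (hG : ∀ x, HasDerivAt G (G' x) x)
    (hlim : Tendsto (fun x => x * G x) atTop (𝓝 0)) (t : ℝ) :
    HasDerivAt (ext G) (ext (fun x => -x ^ 2 * G' x) t) t := by
  rcases lt_trichotomy t 0 with ht | rfl | ht
  · rw [ext_nonpos _ ht.le]
    have h2 : (ext G) =ᶠ[𝓝 t] fun _ : ℝ => (0 : ℝ) := by
      filter_upwards [gt_mem_nhds ht] with s hs using ext_nonpos G hs.le
    exact (hasDerivAt_const t (0 : ℝ)).congr_of_eventuallyEq h2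
  · rw [ext_nonpos _ le_rfl, hasDerivAt_iff_tendsto_slope_zero]
    rw [← nhdsLT_sup_nhdsGT, tendsto_sup]
    constructor
    · refine tendsto_const_nhds.congr' ?_
      filter_upwards [self_mem_nhdsWithin] with s hs
      have hs' : s < 0 := hs
      simp [ext_nonpos G hs'.le, ext_nonpos G le_rfl]
    · have := hlim.comp tendsto_inv_nhdsGT_zero
      refine this.congr' ?_
      filter_upwards [self_mem_nhdsWithin] with s hs
      have hs' : 0 < s := hs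
      simp [ext_pos G hs', ext_nonpos G le_rfl]
  · rw [ext_pos _ ht]
    exact hasDerivAt_ext_pos hG ht

lemma contDiff_ext (A : Set (ℝ → ℝ))
    (hA : ∀ G ∈ A, ∃ G' : ℝ → ℝ, (∀ x, HasDerivAt G (G' x) x) ∧ (fun x => -x ^ 2 * G' x) ∈ A ∧
      Tendsto (fun x => x * G x) atTop (𝓝 0)) : ∀ G ∈ A, ContDiff ℝ ∞ (ext G) := by
  have key : ∀ n : ℕ, ∀ G ∈ A, ContDiff ℝ n (ext G) := by
    intro n
    induction n with
    | zero =>
      intro G hG
      obtain ⟨G', h1, _, h3⟩ := hA G hG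
      simp only [CharP.cast_eq_zero, contDiff_zero]
      exact continuous_iff_continuousAt.mpr fun t => (hasDerivAt_ext h1 h3 t).continuousAt
    | succ n ih =>
      intro G hG
      obtain ⟨G', h1, h2, h3⟩ := hA G hG
      have hd : deriv (ext G) = ext (fun x => -x ^ 2 * G' x) :=
        funext fun t => (hasDerivAt_ext h1 h3 t).deriv
      rw [show ((n + 1 : ℕ) : WithTop ℕ∞) = (n : WithTop ℕ∞) + 1 by push_cast; rfl,
        contDiff_succ_iff_deriv]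
      refine ⟨fun t => (hasDerivAt_ext h1 h3 t).differentiableAt, by simp, ?_⟩
      rw [hd]; exact ih _ h2
  intro G hG
  exact contDiff_infty.mpr fun n => key n G hG

/-- generators -/
noncomputable def gens (κ : ℝ) : Set (ℝ → ℝ) :=
  {fun x => x, Real.sin, Real.cos, fun x => Real.exp (κ * x)}

noncomputable def Pl (κ : ℝ) : Subalgebra ℝ (ℝ → ℝ) := Algebra.adjoin ℝ (gens κ)

lemma id_mem (κ : ℝ) : (fun x : ℝ => x) ∈ Pl κ := Algebra.subset_adjoin (by simp [gens])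
lemma sin_mem (κ : ℝ) : Real.sin ∈ Pl κ := Algebra.subset_adjoin (by simp [gens])
lemma cos_mem (κ : ℝ) : Real.cos ∈ Pl κ := Algebra.subset_adjoin (by simp [gens])
lemma exp_mem (κ : ℝ) : (fun x => Real.exp (κ * x)) ∈ Pl κ :=
  Algebra.subset_adjoin (by simp [gens])
lemma const_mem (κ c : ℝ) : (fun _ : ℝ => c) ∈ Pl κ := (Pl κ).algebraMap_mem c

lemma mul_mem' {κ : ℝ} {p q : ℝ → ℝ} (hp : p ∈ Pl κ) (hq : q ∈ Pl κ) :
    (fun x => p x * q x) ∈ Pl κ := (Pl κ).mul_mem hp hq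
lemma add_mem' {κ : ℝ} {p q : ℝ → ℝ} (hp : p ∈ Pl κ) (hq : q ∈ Pl κ) :
    (fun x => p x + q x) ∈ Pl κ := (Pl κ).add_mem hp hq

lemma deriv_mem {κ : ℝ} {p : ℝ → ℝ} (hp : p ∈ Pl κ) :
    ∃ p' ∈ Pl κ, ∀ x, HasDerivAt p (p' x) x := by
  induction hp using Algebra.adjoin_induction with
  | mem p hp =>
    simp only [gens, mem_insert_iff, mem_singleton_iff] at hp
    rcases hp with rfl | rfl | rfl | rfl
    · exact ⟨fun _ => 1, const_mem κ 1, fun x => hasDerivAt_id x⟩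
    · exact ⟨Real.cos, cos_mem κ, Real.hasDerivAt_sin⟩
    · exact ⟨fun x => (-1) * Real.sin x, mul_mem' (const_mem κ _) (sin_mem κ), fun x => by
        simpa using Real.hasDerivAt_cos x⟩
    · refine ⟨fun x => κ * Real.exp (κ * x), mul_mem' (const_mem κ _) (exp_mem κ), fun x => ?_⟩
      have := ((hasDerivAt_id x).const_mul κ).exp
      simpa [mul_comm] using this
  | algebraMap c => exact ⟨fun _ => 0, const_mem κ 0, fun x => hasDerivAt_const x c⟩
  | add p q _ _ ihp ihq =>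
    obtain ⟨p', h1, h2⟩ := ihp
    obtain ⟨q', h3, h4⟩ := ihq
    exact ⟨fun x => p' x + q' x, add_mem' h1 h3, fun x => (h2 x).add (h4 x)⟩
  | mul p q hp hq ihp ihq =>
    obtain ⟨p', h1, h2⟩ := ihp
    obtain ⟨q', h3, h4⟩ := ihq
    exact ⟨fun x => p' x * q x + p x * q' x, add_mem' (mul_mem' h1 hq) (mul_mem' hp h3),
      fun x => (h2 x).mul (h4 x)⟩

lemma growth {κ : ℝ} (hκ : 0 ≤ κ) {p : ℝ → ℝ} (hp : p ∈ Pl κ) :
    ∃ C : ℝ, ∃ n : ℕ, 0 ≤ C ∧ ∀ x, 0 ≤ x → |p x| ≤ C * ((1 + x) * Real.exp (κ * x)) ^ n := by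
  have hw : ∀ x : ℝ, 0 ≤ x → 1 ≤ Real.exp (κ * x) := fun x hx =>
    Real.one_le_exp (mul_nonneg hκ hx)
  have hw1 : ∀ x : ℝ, 0 ≤ x → 1 ≤ (1 + x) * Real.exp (κ * x) := fun x hx => by
    nlinarith [hw x hx]
  induction hp using Algebra.adjoin_induction with
  | mem p hp =>
    simp only [gens, mem_insert_iff, mem_singleton_iff] at hp
    rcases hp with rfl | rfl | rfl | rfl
    · exact ⟨1, 1, zero_le_one, fun x hx => by
        rw [abs_of_nonneg hx]; nlinarith [hw x hx]⟩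
    · exact ⟨1, 0, zero_le_one, fun x _ => by simpa using Real.abs_sin_le_one x⟩
    · exact ⟨1, 0, zero_le_one, fun x _ => by simpa using Real.abs_cos_le_one x⟩
    · exact ⟨1, 1, zero_le_one, fun x hx => by
        rw [abs_of_pos (Real.exp_pos _)]; nlinarith [hw x hx]⟩
  | algebraMap c => exact ⟨|c|, 0, abs_nonneg c, fun x _ => by simp⟩
  | add p q _ _ ihp ihq =>
    obtain ⟨C, n, hC, h1⟩ := ihp
    obtain ⟨D, m, hD, h2⟩ := ihq
    refine ⟨C + D, n + m, add_nonneg hC hD, fun x hx => ?_⟩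
    have a1 : ((1 + x) * Real.exp (κ * x)) ^ n ≤ ((1 + x) * Real.exp (κ * x)) ^ (n + m) :=
      pow_le_pow_right₀ (hw1 x hx) (Nat.le_add_right _ _)
    have a2 : ((1 + x) * Real.exp (κ * x)) ^ m ≤ ((1 + x) * Real.exp (κ * x)) ^ (n + m) :=
      pow_le_pow_right₀ (hw1 x hx) (Nat.le_add_left _ _)
    calc |(p + q) x| ≤ |p x| + |q x| := abs_add_le _ _
      _ ≤ C * ((1 + x) * Real.exp (κ * x)) ^ (n + m) +
            D * ((1 + x) * Real.exp (κ * x)) ^ (n + m) :=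
          add_le_add ((h1 x hx).trans (mul_le_mul_of_nonneg_left a1 hC))
            ((h2 x hx).trans (mul_le_mul_of_nonneg_left a2 hD))
      _ = _ := by ring
  | mul p q hp hq ihp ihq =>
    obtain ⟨C, n, hC, h1⟩ := ihp
    obtain ⟨D, m, hD, h2⟩ := ihq
    refine ⟨C * D, n + m, mul_nonneg hC hD, fun x hx => ?_⟩
    calc |(p * q) x| = |p x| * |q x| := abs_mul _ _
      _ ≤ (C * ((1 + x) * Real.exp (κ * x)) ^ n) * (D * ((1 + x) * Real.exp (κ * x)) ^ m) :=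
          mul_le_mul (h1 x hx) (h2 x hx) (abs_nonneg _) ((abs_nonneg _).trans (h1 x hx))
      _ = _ := by ring

/-- Main smoothness criterion. -/
theorem contDiff_ext_exp {κ : ℝ} (hκ : 0 ≤ κ) {E : ℝ → ℝ} (hE : E ∈ Pl κ)
    (hdec : ∀ n : ℕ, Tendsto (fun x => ((1 + x) * Real.exp (κ * x)) ^ n * Real.exp (E x)) atTop
      (𝓝 0)) {p : ℝ → ℝ} (hp : p ∈ Pl κ) :
    ContDiff ℝ ∞ (ext fun x => p x * Real.exp (E x)) := by
  obtain ⟨E', hE', hEd⟩ := deriv_mem hE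
  refine contDiff_ext {G | ∃ p ∈ Pl κ, G = fun x => p x * Real.exp (E x)} ?_ _ ⟨p, hp, rfl⟩
  rintro G ⟨p, hp, rfl⟩
  obtain ⟨p', hp', hpd⟩ := deriv_mem hp
  refine ⟨fun x => p' x * Real.exp (E x) + p x * (Real.exp (E x) * E' x),
    fun x => (hpd x).mul (hEd x).exp, ?_, ?_⟩
  · refine ⟨fun x => ((-1) * (x * x)) * (p' x + p x * E' x), ?_, ?_⟩
    · exact mul_mem' (mul_mem' (const_mem κ _) (mul_mem' (id_mem κ) (id_mem κ)))
        (add_mem' hp' (mul_mem' hp hE'))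
    · funext x; ring
  · obtain ⟨C, n, hC, hb⟩ := growth hκ (mul_mem' (id_mem κ) hp)
    have h0 := (hdec n).const_mul C
    rw [mul_zero] at h0
    refine squeeze_zero_norm' ?_ h0
    filter_upwards [eventually_ge_atTop 0] with x hx
    rw [Real.norm_eq_abs, ← mul_assoc, abs_mul, abs_of_pos (Real.exp_pos _), ← mul_assoc]
    exact mul_le_mul_of_nonneg_right (hb x hx) (Real.exp_pos _).le

end Pool.Agent.H368Z.Flat
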