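import Mathlib

/-!
Definitions for MP_4ba699_an: partial derivatives, shape operator of a graph and the elementary
symmetric functions of its principal curvatures.
-/

namespace Pool.Agent.H368Z.Hopf

open Matrix

/-- The point `(t, y)` of `ℝ × ℝ^k = ℝ^(k+1)`. -/
def pt {k : ℕ} (t : ℝ) (y : Fin k → ℝ) : Fin (k + 1) → ℝ := Fin.cons t y

/-- The partial derivative of `f` in the `i`-th coordinate. -/
noncomputable def pd {n : ℕ} (i : Fin n) (f : (Fin n → ℝ) → ℝ) (x : Fin n → ℝ) : ℝ :=
  deriv (fun r : ℝ => f (Function.update x i r)) (x i)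

/-- The shape operator `g⁻¹ h` of the graph of `f` over `x` for the upward unit normal:
`g = I + ∇f ∇fᵀ` is the first fundamental form and `h = D²f / √(1 + |∇f|²)` the second one. -/
noncomputable def shape {n : ℕ} (f : (Fin n → ℝ) → ℝ) (x : Fin n → ℝ) : Matrix (Fin n) (Fin n) ℝ :=
  (1 + vecMulVec (fun i => pd i f x) (fun i => pd i f x))⁻¹ *
    Matrix.of (fun i j => pd i (pd j f) x / Real.sqrt (1 + ∑ l, pd l f x ^ 2))

/-- `σ_m` of the principal curvatures (eigenvalues of the shape operator, with multiplicity). -/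
noncomputable def sigma {n : ℕ} (m : ℕ) (f : (Fin n → ℝ) → ℝ) (x : Fin n → ℝ) : ℝ :=
  (shape f x).charpoly.roots.esymm m

end Pool.Agent.H368Z.Hopf
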