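import Mathlib
import Pool.Agent.H368Z.HopfDefs

/-!
Evaluation of `sigma`.
-/

namespace Pool.Agent.H368Z.Hopf

open Matrix Polynomial

variable {n : ℕ}

lemma vmv_sq (p : Fin n → ℝ) :
    vecMulVec p p * vecMulVec p p = (∑ l, p l ^ 2) • vecMulVec p p := by
  ext i j
  simp only [Matrix.mul_apply, vecMulVec_apply, Matrix.smul_apply, smul_eq_mul, Finset.sum_mul]
  exact Finset.sum_congr rfl fun l _ => by ring

lemma one_sub_mul (p : Fin n → ℝ) (a b : ℝ) :
    (1 + a • vecMulVec p p) * (1 + b • vecMulVec p p) =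
      1 + (a + b + a * b * ∑ l, p l ^ 2) • vecMulVec p p := by
  rw [add_mul, mul_add, mul_add, one_mul, one_mul, mul_one, smul_mul_smul_comm, vmv_sq,
    smul_smul, add_smul, add_smul]
  abel

lemma inv_metric (p : Fin n → ℝ) :
    (1 + vecMulVec p p)⁻¹ = 1 + (-(1 + ∑ l, p l ^ 2)⁻¹) • vecMulVec p p := by
  apply Matrix.inv_eq_right_inv
  have h := one_sub_mul p 1 (-(1 + ∑ l, p l ^ 2)⁻¹)
  rw [one_smul] at h
  rw [h]
  have hq : 0 < 1 + ∑ l, p l ^ 2 := by positivity
  have : (1 + -(1 + ∑ l, p l ^ 2)⁻¹ + 1 * -(1 + ∑ l, p l ^ 2)⁻¹ * ∑ l, p l ^ 2) = 0 := by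
    field_simp; ring
  rw [this, zero_smul, add_zero]

lemma splits_shape (p : Fin n → ℝ) (H : Matrix (Fin n) (Fin n) ℝ) (hH : H.IsHermitian) :
    ((1 + vecMulVec p p)⁻¹ * H).charpoly.Splits := by
  have hq : 0 < 1 + ∑ l, p l ^ 2 := by positivity
  set W := Real.sqrt (1 + ∑ l, p l ^ 2) with hW
  have hW0 : 0 < W := Real.sqrt_pos.mpr hq
  have hW2 : W ^ 2 = 1 + ∑ l, p l ^ 2 := Real.sq_sqrt hq.le
  set γ : Matrix (Fin n) (Fin n) ℝ := 1 + (-(W * (1 + W))⁻¹) • vecMulVec p p with hγ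
  have h1 : γ * γ = (1 + vecMulVec p p)⁻¹ := by
    rw [hγ, one_sub_mul, inv_metric]
    congr 2
    have : ∑ l, p l ^ 2 = W ^ 2 - 1 := by linarith
    rw [← hW2, this]
    field_simp; ring
  have h2 : γ.IsHermitian := by
    ext i j
    simp only [hγ, conjTranspose_apply, star_trivial, Matrix.add_apply, Matrix.smul_apply,
      vecMulVec_apply, smul_eq_mul, Matrix.one_apply, eq_comm (a := j)]
    ring
  rw [← h1, mul_assoc, charpoly_mul_comm]
  have h3 : (γ * H * γ).IsHermitian := by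
    have := Matrix.isHermitian_conjTranspose_mul_mul γ hH
    rwa [h2.eq] at this
  exact h3.splits_charpoly

lemma esymm_one' (s : Multiset ℝ) : s.esymm 1 = s.sum := by
  simp [Multiset.esymm, Multiset.powersetCard_one, Multiset.map_map]

lemma sigma_one (f : (Fin n → ℝ) → ℝ) (x : Fin n → ℝ)
    (hs : ∀ i j, pd i (pd j f) x = pd j (pd i f) x) :
    sigma 1 f x = ((1 + ∑ l, pd l f x ^ 2) * ∑ i, pd i (pd i f) x -
      ∑ i, ∑ j, pd i f x * pd j f x * pd j (pd i f) x) /
        Real.sqrt (1 + ∑ l, pd l f x ^ 2) ^ 3 := by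
  have hq : 0 < 1 + ∑ l, pd l f x ^ 2 := by positivity
  unfold sigma shape
  rw [esymm_one', ← trace_eq_sum_roots_charpoly_of_splits (splits_shape _ _ (by
    ext i j; simp [conjTranspose_apply, hs i j])), inv_metric, add_mul, one_mul, smul_mul_assoc,
    trace_add, trace_smul]
  set W := Real.sqrt (1 + ∑ l, pd l f x ^ 2) with hW
  have hW0 : 0 < W := Real.sqrt_pos.mpr hq
  have hW2 : W ^ 2 = 1 + ∑ l, pd l f x ^ 2 := Real.sq_sqrt hq.le
  simp only [trace, diag_apply, of_apply, Matrix.mul_apply, vecMulVec_apply, smul_eq_mul,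
    ← mul_div_assoc, ← Finset.sum_div]
  rw [← hW2]
  field_simp
  ring

lemma sigma_rank_one {k m : ℕ} (hm : 2 ≤ m) (f : (Fin (k + 1) → ℝ) → ℝ) (x : Fin (k + 1) → ℝ)
    (h1 : ∀ i, i ≠ 0 → pd i f x = 0) (h2 : ∀ i j, i ≠ 0 ∨ j ≠ 0 → pd i (pd j f) x = 0) :
    sigma m f x = 0 := by
  have hd : shape f x = diagonal fun i => shape f x i i := by
    ext i j
    by_cases hij : i = j
    · subst hij; simp
    · rw [diagonal_apply_ne _ hij]
      unfold shape
      rw [inv_metric, Matrix.mul_apply]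
      refine Finset.sum_eq_zero fun l _ => ?_
      by_cases hl : l ≠ 0 ∨ j ≠ 0
      · simp [h2 l j hl]
      · push Not at hl
        obtain ⟨rfl, rfl⟩ := hl
        simp [Matrix.one_apply_ne hij, vecMulVec_apply, h1 i hij]
  have hz : ∀ i, i ≠ 0 → shape f x i i = 0 := by
    intro i hi
    unfold shape
    rw [Matrix.mul_apply]
    exact Finset.sum_eq_zero fun l _ => by simp [h2 l i (Or.inr hi)]
  unfold sigma
  rw [hd, charpoly_diagonal, Finset.prod, ← Function.comp_def (fun a : ℝ => X - C a),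
    ← Multiset.map_map, roots_multiset_prod_X_sub_C, Finset.esymm_map_val]
  refine Finset.sum_eq_zero fun s hs => ?_
  have hc := (Finset.mem_powersetCard.mp hs).2
  obtain ⟨i, hi, hi0⟩ : ∃ i ∈ s, i ≠ 0 := by
    by_contra hcon
    push Not at hcon
    have : s ⊆ {0} := fun i hi => Finset.mem_singleton.mpr (hcon i hi)
    have := Finset.card_le_card this
    simp at this; omega
  exact Finset.prod_eq_zero hi (hz i hi0)

end Pool.Agent.H368Z.Hopf
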