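import Mathlib

/-!
The pointwise inequality behind the comparison of mean curvatures.
-/

namespace Pool.Agent.H368Z.Hopf

/-- comparison of `P` and `((1+εP)/(1+ε))^(3/2)`. -/
lemma theta_exists {ε P Wu Wv : ℝ} (hε : 0 ≤ ε) (hε' : ε ≤ 1 / 72) (hP0 : 0 ≤ P) (hP : P ≤ 5)
    (hu : 0 < Wu) (hv : 0 < Wv) (hu2 : Wu ^ 2 = 1 + ε) (hv2 : Wv ^ 2 = 1 + ε * P) :
    ∃ θ : ℝ, 1 / 2 ≤ θ ∧ θ ≤ 1 ∧ P - (Wv / Wu) ^ 3 = θ * (P - 1) := by
  set ρ := Wv / Wu with hρ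
  have hρ0 : 0 < ρ := div_pos hv hu
  have h1 : ρ ^ 2 * (1 + ε) = 1 + ε * P := by
    rw [hρ, div_pow, hu2, hv2]; field_simp
  have hρ2 : ρ ≤ 2 := by
    by_contra hc
    push Not at hc
    nlinarith
  refine ⟨1 - ε / (1 + ε) * ((ρ ^ 2 + ρ + 1) / (ρ + 1)), ?_, ?_, ?_⟩
  · have a1 : ε / (1 + ε) ≤ 1 / 72 := by
      rw [div_le_iff₀ (by linarith)]; nlinarith
    have a2 : (ρ ^ 2 + ρ + 1) / (ρ + 1) ≤ 3 := by
      rw [div_le_iff₀ (by linarith)]; nlinarith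
    have a3 : 0 ≤ (ρ ^ 2 + ρ + 1) / (ρ + 1) := by positivity
    have a4 : 0 ≤ ε / (1 + ε) := by positivity
    nlinarith
  · have a3 : 0 ≤ (ρ ^ 2 + ρ + 1) / (ρ + 1) := by positivity
    have a4 : 0 ≤ ε / (1 + ε) := by positivity
    nlinarith
  · have e1 : ε * (P - 1) = (ρ ^ 2 - 1) * (1 + ε) := by linarith
    have e2 : ε / (1 + ε) * ((ρ ^ 2 + ρ + 1) / (ρ + 1)) * (P - 1) = ρ ^ 3 - 1 := by
      have : ε / (1 + ε) * ((ρ ^ 2 + ρ + 1) / (ρ + 1)) * (P - 1) =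
          (ε * (P - 1)) / (1 + ε) * ((ρ ^ 2 + ρ + 1) / (ρ + 1)) := by ring
      rw [this, e1]; field_simp; ring
    linarith [e2]

lemma core {η β f f1 f2 g sn a e Wu Wv : ℝ} (hβ : 0 < β) (hβ' : β ^ 2 ≤ 1 / 72)
    (hg : 1 / 2 ≤ g) (hg' : g ≤ 1) (hsn : |sn| ≤ 1) (hf : 0 < f) (hf' : f ≤ 1)
    (hf1 : |f1| ≤ 1) (hf2 : |f2| ≤ 1) (hη : |η| * f ≤ 1 / 8) (ha : 0 ≤ a) (he : 0 ≤ e)
    (hae : a - e ≤ -η * f1) (hkey : 0 ≤ a / 2 - 3 * e + f / 2 - f2)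
    (hu : 0 < Wu) (hv : 0 < Wv) (hu2 : Wu ^ 2 = 1 + β ^ 2)
    (hv2 : Wv ^ 2 = 1 + β ^ 2 * ((1 - f1 * g) ^ 2 + (f * sn) ^ 2)) :
    β * η / Wu ^ 3 ≤
      (β * η * ((1 - f1 * g) ^ 2 + (f * sn) ^ 2) + β * ((f - f2) * g) +
        β ^ 3 * ((f * sn) ^ 2 * (-f2 * g) - 2 * (1 - f1 * g) * (f * sn) * (f1 * sn) +
          (1 - f1 * g) ^ 2 * (f * g))) / Wv ^ 3 := by
  have hf1' := abs_le.mp hf1
  have hf2' := abs_le.mp hf2
  have hsn' := abs_le.mp hsn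
  have hfg : |f1 * g| ≤ 1 := by
    rw [abs_mul, abs_of_pos (by linarith : 0 < g)]; nlinarith only [abs_nonneg f1, hf1, hg, hg']
  have hfg' := abs_le.mp hfg
  have hsn2 : sn ^ 2 ≤ 1 := by nlinarith only [hsn'.1, hsn'.2]
  have hfs : (f * sn) ^ 2 ≤ f ^ 2 := by rw [mul_pow]; nlinarith only [sq_nonneg f, hsn2]
  have hff : f ^ 2 ≤ f := by nlinarith only [hf, hf']
  set P := (1 - f1 * g) ^ 2 + (f * sn) ^ 2 with hP
  have hT : (1 - f1 * g) ^ 2 ≤ 4 := by nlinarith only [hfg'.1, hfg'.2]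
  have hP5 : P ≤ 5 := by linarith only [hP, hT, hfs, hff, hf']
  obtain ⟨θ, h1, h2, h3⟩ := theta_exists (sq_nonneg β) hβ' (by positivity) hP5 hu hv hu2 hv2
  set Q := (f * sn) ^ 2 * (-f2 * g) - 2 * (1 - f1 * g) * (f * sn) * (f1 * sn) +
          (1 - f1 * g) ^ 2 * (f * g) with hQ
  have hQ' : -(5 * f) ≤ Q := by
    have q1 : -f ≤ (f * sn) ^ 2 * (-f2 * g) := by
      have : -1 ≤ -f2 * g := by nlinarith only [hf2'.1, hf2'.2, hg, hg']
      nlinarith only [sq_nonneg (f * sn), this, hfs, hff]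
    have q2 : 2 * (1 - f1 * g) * (f * sn) * (f1 * sn) ≤ 4 * f := by
      have : 2 * (1 - f1 * g) * (f * sn) * (f1 * sn) = 2 * f * ((1 - f1 * g) * (f1 * sn ^ 2)) := by
        ring
      rw [this]
      have b1 : f1 * sn ^ 2 ≤ 1 := by nlinarith only [sq_nonneg sn, hsn2, hf1'.2]
      have b2 : (1 - f1 * g) * (f1 * sn ^ 2) ≤ 2 := by nlinarith only [b1, hfg'.1, hfg'.2]
      nlinarith only [b2, hf]
    have q3 : 0 ≤ (1 - f1 * g) ^ 2 * (f * g) := by positivity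
    linarith
  have hmain : 0 ≤ θ * η * (P - 1) + (f - f2) * g + β ^ 2 * Q := by
    have e1 : θ * η * (P - 1) = θ * (2 - f1 * g) * (-η * f1) * g + θ * (η * (f * sn) ^ 2) := by
      rw [hP]; ring
    have c1 : 1 / 2 ≤ θ * (2 - f1 * g) := by nlinarith only [h1, hfg'.2]
    have c2 : θ * (2 - f1 * g) ≤ 3 := by nlinarith only [h1, h2, hfg'.1, hfg'.2]
    have c3 : a / 2 - 3 * e ≤ θ * (2 - f1 * g) * (-η * f1) := by
      have : θ * (2 - f1 * g) * (a - e) ≤ θ * (2 - f1 * g) * (-η * f1) :=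
        mul_le_mul_of_nonneg_left hae (by linarith)
      nlinarith only [this, mul_le_mul_of_nonneg_right c1 ha, mul_le_mul_of_nonneg_right c2 he]
    have c4 : -(f / 8) ≤ θ * (η * (f * sn) ^ 2) := by
      have d1 : -(|η| * f ^ 2) ≤ η * (f * sn) ^ 2 := by
        have := neg_abs_le η
        nlinarith only [mul_le_mul_of_nonneg_right this (sq_nonneg (f * sn)),
          mul_le_mul_of_nonneg_left hfs (abs_nonneg η)]
      have d2 : |η| * f ^ 2 ≤ f / 8 := by nlinarith only [mul_le_mul_of_nonneg_right hη hf.le]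
      have d3 : -(f / 8) ≤ η * (f * sn) ^ 2 := by linarith
      have d4 := mul_le_mul_of_nonneg_left d3 (by linarith : 0 ≤ θ)
      nlinarith only [d4, h2, hf]
    have c5 : -(f / 8) ≤ β ^ 2 * Q := by
      have d4 := mul_le_mul_of_nonneg_left hQ' (sq_nonneg β)
      nlinarith only [d4, hβ', hf]
    have c6 : (a / 2 - 3 * e) * g ≤ θ * (2 - f1 * g) * (-η * f1) * g :=
      mul_le_mul_of_nonneg_right c3 (by linarith)
    have c7 : 0 ≤ (a / 2 - 3 * e + f / 2 - f2) * g := mul_nonneg hkey (by linarith)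
    rw [e1]
    nlinarith only [c4, c5, c6, c7, mul_le_mul_of_nonneg_left hg hf.le]
  rw [div_le_div_iff₀ (by positivity) (by positivity)]
  have e3 : Wv ^ 3 = (P - θ * (P - 1)) * Wu ^ 3 := by
    rw [← h3]; field_simp; ring
  rw [e3]
  have : 0 ≤ β * Wu ^ 3 * (θ * η * (P - 1) + (f - f2) * g + β ^ 2 * Q) := by positivity
  nlinarith only [this]

end Pool.Agent.H368Z.Hopf
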