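import Mathlib
import Pool.Agent.H368Z.Flat

/-!
The two oscillating flat profiles `ff` and `bb`.
-/

namespace Pool.Agent.H368Z.Hopf

open Filter Topology Set Real Pool.Agent.H368Z.Flat
open scoped ContDiff

noncomputable def phi (x : ℝ) : ℝ := sin x ^ 3 + sin x ^ 4 / 2
noncomputable def phi' (x : ℝ) : ℝ := (3 * sin x ^ 2 + 2 * sin x ^ 3) * cos x

noncomputable def FF (x : ℝ) : ℝ :=
  cos x - cos x ^ 3 / 3 - 3 / 16 * x + 3 / 16 * (sin x * cos x) + 1 / 8 * (sin x ^ 3 * cos x)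

noncomputable def del : ℝ := 1 / 10 ^ 21
noncomputable def KK : ℝ := 2 * 10 ^ 9

noncomputable def psi (x : ℝ) : ℝ :=
  -4 + sin x / 16 - cos x + sin x * cos x / 4 - sin x ^ 2 / 128

noncomputable def HH (x : ℝ) : ℝ := KK * (exp (1 / 16 * x) * psi x)

noncomputable def eta (x : ℝ) : ℝ :=
  -(KK * x ^ 2 * exp (1 / 16 * x)) * sin x * (257 / 256 - 1025 / 2048 * sin x)

lemma hasDerivAt_phi (x : ℝ) : HasDerivAt phi (phi' x) x := by
  have h := ((hasDerivAt_sin x).pow 3).add (((hasDerivAt_sin x).pow 4).div_const 2)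
  have e : phi' x = ((3 : ℕ) : ℝ) * sin x ^ (3 - 1) * cos x +
      ((4 : ℕ) : ℝ) * sin x ^ (4 - 1) * cos x / 2 := by
    unfold phi'; push_cast; ring
  rw [e]; exact h

lemma hasDerivAt_FF (x : ℝ) : HasDerivAt FF (-phi x) x := by
  have h := ((((hasDerivAt_cos x).sub (((hasDerivAt_cos x).pow 3).div_const 3)).sub
    ((hasDerivAt_id x).const_mul (3 / 16))).add
    (((hasDerivAt_sin x).mul (hasDerivAt_cos x)).const_mul (3 / 16))).add
    ((((hasDerivAt_sin x).pow 3).mul (hasDerivAt_cos x)).const_mul (1 / 8))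
  refine HasDerivAt.congr_deriv h ?_
  have hc : cos x ^ 2 = 1 - sin x ^ 2 := by nlinarith [sin_sq_add_cos_sq x]
  simp only [phi, Pi.pow_apply]
  push_cast
  linear_combination (sin x + 3 / 16 + 3 / 8 * sin x ^ 2) * hc

lemma hasDerivAt_HH (x : ℝ) :
    HasDerivAt HH (KK * exp (1 / 16 * x) * sin x * (257 / 256 - 1025 / 2048 * sin x)) x := by
  have hp := ((((hasDerivAt_const x (-4 : ℝ)).add ((hasDerivAt_sin x).div_const 16)).sub
    (hasDerivAt_cos x)).add (((hasDerivAt_sin x).mul (hasDerivAt_cos x)).div_const 4)).sub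
    (((hasDerivAt_sin x).pow 2).div_const 128)
  have he := ((hasDerivAt_id x).const_mul (1 / 16 : ℝ)).exp
  have h := (he.mul hp).const_mul KK
  refine HasDerivAt.congr_deriv h ?_
  have hc : cos x ^ 2 = 1 - sin x ^ 2 := by nlinarith [sin_sq_add_cos_sq x]
  simp only [Pi.pow_apply, Pi.add_apply, Pi.sub_apply, Pi.mul_apply, id]
  push_cast
  linear_combination (KK * exp (1 / 16 * x) / 4) * hc

lemma FF_le (x : ℝ) : FF x ≤ 1 - 3 / 16 * x := by
  have h1 := sin_sq_add_cos_sq x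
  have a1 : cos x - cos x ^ 3 / 3 ≤ 2 / 3 := by
    have : 0 ≤ (1 - cos x) ^ 2 * (cos x + 2) :=
      mul_nonneg (sq_nonneg _) (by linarith [neg_one_le_cos x])
    nlinarith
  have a2 : sin x * cos x ≤ 1 / 2 := by nlinarith [sq_nonneg (sin x - cos x)]
  have a3 : sin x ^ 3 * cos x ≤ 1 / 2 := by
    have b1 : sin x ^ 2 ≤ 1 := by nlinarith [sq_nonneg (cos x)]
    have : sin x ^ 3 * cos x = sin x ^ 2 * (sin x * cos x) := by ring
    rw [this]; nlinarith [sq_nonneg (sin x)]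
  unfold FF; linarith

lemma psi_le (x : ℝ) : psi x ≤ -2 := by
  have h1 := sin_sq_add_cos_sq x
  have a2 : sin x * cos x ≤ 1 / 2 := by nlinarith [sq_nonneg (sin x - cos x)]
  unfold psi
  nlinarith [sin_le_one x, neg_one_le_cos x, sq_nonneg (sin x)]

lemma KK_pos : 0 < KK := by unfold KK; norm_num
lemma del_pos : 0 < del := by unfold del; norm_num

lemma HH_le (x : ℝ) : HH x ≤ -(2 * KK) * exp (1 / 16 * x) := by
  unfold HH
  have := mul_le_mul_of_nonneg_left (psi_le x) (mul_pos KK_pos (exp_pos (1 / 16 * x))).le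
  linarith

lemma FF_mem : FF ∈ Pl 0 := by
  have hs := sin_mem 0
  have hc := cos_mem 0
  have hi := id_mem 0
  have := add_mem' (add_mem' (add_mem' (add_mem' hc (mul_mem' (const_mem 0 (-1 / 3))
    (mul_mem' hc (mul_mem' hc hc)))) (mul_mem' (const_mem 0 (-3 / 16)) hi))
    (mul_mem' (const_mem 0 (3 / 16)) (mul_mem' hs hc)))
    (mul_mem' (const_mem 0 (1 / 8)) (mul_mem' (mul_mem' hs (mul_mem' hs hs)) hc))
  convert this using 1
  funext x; unfold FF; ring

lemma HH_mem : HH ∈ Pl (1 / 16) := by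
  have hs := sin_mem (1 / 16)
  have hc := cos_mem (1 / 16)
  have he := exp_mem (1 / 16)
  have := mul_mem' (const_mem _ KK) (mul_mem' he
    (add_mem' (add_mem' (add_mem' (add_mem' (const_mem _ (-4)) (mul_mem' (const_mem _ (1 / 16)) hs))
    (mul_mem' (const_mem _ (-1)) hc)) (mul_mem' (const_mem _ (1 / 4)) (mul_mem' hs hc)))
    (mul_mem' (const_mem _ (-1 / 128)) (mul_mem' hs hs))))
  convert this using 1
  funext x; unfold HH psi; ring

lemma FF_dec (n : ℕ) :
    Tendsto (fun x => ((1 + x) * exp (0 * x)) ^ n * exp (FF x)) atTop (𝓝 0) := by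
  have h0 : Tendsto (fun x : ℝ => 3 / 16 * (1 + x)) atTop atTop :=
    (tendsto_atTop_add_const_left _ 1 tendsto_id).const_mul_atTop (by norm_num)
  have h1 := ((tendsto_pow_mul_exp_neg_atTop_nhds_zero n).comp h0).const_mul
    ((16 / 3) ^ n * exp (1 + 3 / 16))
  rw [mul_zero] at h1
  refine squeeze_zero' ?_ ?_ h1
  · filter_upwards [eventually_ge_atTop 0] with x hx; positivity
  · filter_upwards [eventually_ge_atTop 0] with x hx
    simp only [zero_mul, exp_zero, mul_one, Function.comp]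
    have e1 : (16 / 3 : ℝ) ^ n * exp (1 + 3 / 16) *
        ((3 / 16 * (1 + x)) ^ n * exp (-(3 / 16 * (1 + x)))) =
        (1 + x) ^ n * exp (1 - 3 / 16 * x) := by
      have : (16 / 3 : ℝ) ^ n * (3 / 16 * (1 + x)) ^ n = (1 + x) ^ n := by
        rw [← mul_pow]; congr 1; ring
      rw [← this, show (1 - 3 / 16 * x : ℝ) = (1 + 3 / 16) + -(3 / 16 * (1 + x)) by ring,
        exp_add (1 + 3 / 16)]
      ring
    rw [e1]
    exact mul_le_mul_of_nonneg_left (exp_le_exp.mpr (FF_le x)) (by positivity)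

lemma HH_dec (n : ℕ) :
    Tendsto (fun x => ((1 + x) * exp (1 / 16 * x)) ^ n * exp (HH x)) atTop (𝓝 0) := by
  refine squeeze_zero' ?_ ?_ tendsto_exp_neg_atTop_nhds_zero
  · filter_upwards [eventually_ge_atTop 0] with x hx; positivity
  · filter_upwards [eventually_ge_atTop (2 * (n : ℝ) + 1)] with x hx
    have hn : (0 : ℝ) ≤ n := Nat.cast_nonneg n
    have hx0 : 0 ≤ x := by linarith
    have a1 : (1 + x) * exp (1 / 16 * x) ≤ exp (2 * x) := by
      have b1 : 1 + x ≤ exp x := by linarith [add_one_le_exp x]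
      have b2 : exp (1 / 16 * x) ≤ exp x := exp_le_exp.mpr (by linarith)
      calc (1 + x) * exp (1 / 16 * x) ≤ exp x * exp x :=
            mul_le_mul b1 b2 (exp_pos _).le (exp_pos _).le
        _ = exp (2 * x) := by rw [← exp_add]; congr 1; ring
    have a2 : ((1 + x) * exp (1 / 16 * x)) ^ n ≤ exp (n * (2 * x)) := by
      rw [exp_nat_mul]; exact pow_le_pow_left₀ (by positivity) a1 n
    have a3 : HH x ≤ -x ^ 2 := by
      have b1 := pow_div_factorial_le_exp (1 / 16 * x) (by positivity) 2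
      have b2 := HH_le x
      norm_num [Nat.factorial] at b1
      unfold KK at b2
      nlinarith [sq_nonneg x]
    calc ((1 + x) * exp (1 / 16 * x)) ^ n * exp (HH x) ≤ exp (n * (2 * x)) * exp (-x ^ 2) :=
          mul_le_mul a2 (exp_le_exp.mpr a3) (exp_pos _).le (exp_pos _).le
      _ ≤ exp (-x) := by
          rw [← exp_add]; apply exp_le_exp.mpr; nlinarith

/-- the shift profile -/
noncomputable def ff : ℝ → ℝ := ext fun x => del * exp (FF x)
/-- the slope profile -/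
noncomputable def be : ℝ → ℝ := ext fun x => 1 * exp (HH x)
/-- the height profile -/
noncomputable def bb (t : ℝ) : ℝ := ∫ r in (0 : ℝ)..t, be r

lemma ff_smooth : ContDiff ℝ ∞ ff := contDiff_ext_exp le_rfl FF_mem FF_dec (const_mem 0 del)

lemma be_smooth : ContDiff ℝ ∞ be :=
  contDiff_ext_exp (by norm_num) HH_mem HH_dec (const_mem _ 1)

lemma hasDerivAt_bb (t : ℝ) : HasDerivAt bb (be t) t :=
  (be_smooth.continuous.integral_hasStrictDerivAt 0 t).hasDerivAt

lemma bb_smooth : ContDiff ℝ ∞ bb := by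
  rw [contDiff_infty_iff_deriv]
  refine ⟨fun t => (hasDerivAt_bb t).differentiableAt, ?_⟩
  rw [show deriv bb = be from funext fun t => (hasDerivAt_bb t).deriv]
  exact be_smooth

lemma be_pos {t : ℝ} (ht : 0 < t) : 0 < be t := by
  unfold be; rw [ext_pos _ ht]; positivity

lemma be_nonpos {t : ℝ} (ht : t ≤ 0) : be t = 0 := ext_nonpos _ ht
lemma ff_nonpos {t : ℝ} (ht : t ≤ 0) : ff t = 0 := ext_nonpos _ ht

lemma ff_pos {t : ℝ} (ht : 0 < t) : 0 < ff t := by
  unfold ff; rw [ext_pos _ ht]; have := del_pos; positivity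

lemma bb_nonpos {t : ℝ} (ht : t ≤ 0) : bb t = 0 := by
  unfold bb
  rw [intervalIntegral.integral_congr (g := fun _ => 0)]
  · simp
  · intro r hr
    rw [uIcc_of_ge ht] at hr
    exact be_nonpos hr.2

lemma bb_strictMono : StrictMonoOn bb (Ici 0) := by
  refine strictMonoOn_of_deriv_pos (convex_Ici 0) bb_smooth.continuous.continuousOn ?_
  intro t ht
  rw [interior_Ici] at ht
  rw [(hasDerivAt_bb t).deriv]; exact be_pos ht

lemma be_sq_le {t : ℝ} (ht : 0 < t) : be t ^ 2 ≤ 1 / 72 := by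
  have h0 := be_pos ht
  have h1 : be t ≤ 1 / 9 := by
    unfold be; rw [ext_pos _ ht, one_mul]
    have a1 : 1 ≤ exp (1 / 16 * t⁻¹) := one_le_exp (by positivity)
    have a2 := HH_le t⁻¹
    have a3 : HH t⁻¹ ≤ -8 := by unfold KK at a2; nlinarith
    have a4 : 9 ≤ exp 8 := by linarith [add_one_le_exp (8 : ℝ)]
    calc exp (HH t⁻¹) ≤ exp (-8) := exp_le_exp.mpr a3
      _ ≤ 1 / 9 := by rw [exp_neg, inv_eq_one_div]; exact one_div_le_one_div_of_le (by norm_num) a4
  nlinarith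

lemma hasDerivAt_be {t : ℝ} (ht : 0 < t) : HasDerivAt be (be t * eta t⁻¹) t := by
  have h := hasDerivAt_ext_pos (G := fun x => 1 * exp (HH x))
    (fun x => (hasDerivAt_HH x).exp.const_mul 1) ht
  refine HasDerivAt.congr_deriv h ?_
  unfold be eta; rw [ext_pos _ ht]; ring

lemma hasDerivAt_ff {t : ℝ} (ht : 0 < t) : HasDerivAt ff (t⁻¹ ^ 2 * phi t⁻¹ * ff t) t := by
  have h := hasDerivAt_ext_pos (G := fun x => del * exp (FF x))
    (fun x => (hasDerivAt_FF x).exp.const_mul del) ht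
  refine HasDerivAt.congr_deriv h ?_
  unfold ff; rw [ext_pos _ ht]; ring

lemma hasDerivAt_ff' {t : ℝ} (ht : 0 < t) : HasDerivAt (deriv ff)
    ((-2 * t⁻¹ ^ 3 * phi t⁻¹ - t⁻¹ ^ 4 * phi' t⁻¹ + t⁻¹ ^ 4 * phi t⁻¹ ^ 2) * ff t) t := by
  have h := hasDerivAt_ext_pos (G := fun x => x ^ 2 * phi x * (del * exp (FF x)))
    (fun x => (((hasDerivAt_id x).pow 2).mul (hasDerivAt_phi x)).mul
      ((hasDerivAt_FF x).exp.const_mul del)) ht
  have h2 : deriv ff =ᶠ[𝓝 t] ext (fun x => x ^ 2 * phi x * (del * exp (FF x))) := by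
    filter_upwards [lt_mem_nhds ht] with s hs
    rw [(hasDerivAt_ff hs).deriv, ext_pos _ hs]; unfold ff; rw [ext_pos _ hs]
  refine HasDerivAt.congr_deriv (h.congr_of_eventuallyEq h2) ?_
  unfold ff; rw [ext_pos _ ht]
  simp only [Pi.pow_apply, Pi.mul_apply, id]
  push_cast; ring

/-- the smallness of `ff`. -/
lemma ff_small {t : ℝ} (ht : 0 < t) :
    ff t * t⁻¹ ^ 6 * exp (1 / 16 * t⁻¹) ≤ 6 / 10 ^ 13 := by
  unfold ff; rw [ext_pos _ ht]
  set x := t⁻¹
  have hx : 0 < x := inv_pos.mpr ht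
  have a1 : exp (FF x) ≤ exp (1 - 3 / 16 * x) := exp_le_exp.mpr (FF_le x)
  have a2 := pow_div_factorial_le_exp (1 / 8 * x) (by positivity) 6
  norm_num [Nat.factorial] at a2
  have a3 : exp (1 - 3 / 16 * x) * exp (1 / 16 * x) * exp (1 / 8 * x) = exp 1 := by
    rw [← exp_add, ← exp_add]; congr 1; ring
  have a4 : exp 1 ≤ 3 := by linarith [exp_one_lt_d9]
  have a5 : x ^ 6 ≤ 188743680 * exp (1 / 8 * x) := by
    have : (1 / 8 * x) ^ 6 = x ^ 6 / 262144 := by ring
    rw [this] at a2; linarith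
  have a6 : 0 < exp (1 - 3 / 16 * x) * exp (1 / 16 * x) := by positivity
  calc del * exp (FF x) * x ^ 6 * exp (1 / 16 * x)
      ≤ del * exp (1 - 3 / 16 * x) * x ^ 6 * exp (1 / 16 * x) := by
        have := del_pos
        gcongr
    _ = del * (x ^ 6 * (exp (1 - 3 / 16 * x) * exp (1 / 16 * x))) := by ring
    _ ≤ del * ((188743680 * exp (1 / 8 * x)) * (exp (1 - 3 / 16 * x) * exp (1 / 16 * x))) := by
        have := del_pos
        gcongr
    _ = del * 188743680 * exp 1 := by rw [← a3]; ring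
    _ ≤ 6 / 10 ^ 13 := by unfold del; nlinarith

end Pool.Agent.H368Z.Hopf
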