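import Mathlib
import Pool.Agent.H368Z.HopfProf
import Pool.Agent.H368Z.HopfIneq

/-!
The profiles satisfy the hypotheses of the pointwise inequality.
-/

namespace Pool.Agent.H368Z.Hopf

open Filter Topology Set Real

lemma ff_bound {s : ℝ} (hs : 0 < s) : ff s * s⁻¹ ^ 6 ≤ 6 / 10 ^ 13 := by
  have h := ff_small hs
  have a1 : 1 ≤ exp (1 / 16 * s⁻¹) := one_le_exp (by positivity)
  have a2 : 0 ≤ ff s * s⁻¹ ^ 6 := by have := ff_pos hs; positivity
  nlinarith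

lemma ff_bound' {s : ℝ} (hs : 0 < s) (hs1 : s ≤ 1) {k : ℕ} (hk : k ≤ 6) :
    ff s * s⁻¹ ^ k ≤ 6 / 10 ^ 13 := by
  have hx : 1 ≤ s⁻¹ := (one_le_inv₀ hs).mpr hs1
  have := pow_le_pow_right₀ hx hk
  exact (mul_le_mul_of_nonneg_left this (ff_pos hs).le).trans (ff_bound hs)

lemma ff_le_half {s : ℝ} (hs : 0 < s) (hs1 : s ≤ 1) : ff s ≤ s / 2 := by
  have h := ff_bound' hs hs1 (k := 1) (by norm_num)
  rw [pow_one, ← div_eq_mul_inv, div_le_iff₀ hs] at h
  nlinarith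

lemma abs_phi_le (x : ℝ) : |phi x| ≤ 3 / 2 * sin x ^ 2 := by
  have h1 := sin_le_one x
  have h2 := neg_one_le_sin x
  have e : phi x = sin x ^ 2 * (sin x + sin x ^ 2 / 2) := by unfold phi; ring
  have h3 : sin x ^ 2 ≤ 1 := by nlinarith
  have h4 : |sin x + sin x ^ 2 / 2| ≤ 3 / 2 := by
    rw [abs_le]; constructor <;> nlinarith [sq_nonneg (sin x)]
  rw [e, abs_mul, abs_of_nonneg (sq_nonneg _), mul_comm]
  exact mul_le_mul_of_nonneg_right h4 (sq_nonneg _)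

lemma abs_phi'_le (x : ℝ) : |phi' x| ≤ 5 * sin x ^ 2 := by
  have h1 := sin_le_one x
  have h2 := neg_one_le_sin x
  have e : phi' x = sin x ^ 2 * ((3 + 2 * sin x) * cos x) := by unfold phi'; ring
  have h4 : |(3 + 2 * sin x) * cos x| ≤ 5 := by
    rw [abs_mul, abs_of_nonneg (by linarith : 0 ≤ 3 + 2 * sin x)]
    nlinarith [abs_cos_le_one x, abs_nonneg (cos x)]
  rw [e, abs_mul, abs_of_nonneg (sq_nonneg _), mul_comm]
  exact mul_le_mul_of_nonneg_right h4 (sq_nonneg _)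

lemma second_le {x : ℝ} (hx : 1 ≤ x) :
    |-2 * x ^ 3 * phi x - x ^ 4 * phi' x + x ^ 4 * phi x ^ 2| ≤ 11 * (x ^ 4 * sin x ^ 2) := by
  have h1 := abs_phi_le x
  have h2 := abs_phi'_le x
  have h3 : sin x ^ 2 ≤ 1 := by nlinarith [sin_sq_add_cos_sq x, sq_nonneg (cos x)]
  have hx0 : 0 < x := by linarith
  have h34 : x ^ 3 ≤ x ^ 4 := pow_le_pow_right₀ hx (by norm_num)
  have b1 : |-2 * x ^ 3 * phi x| ≤ 3 * (x ^ 4 * sin x ^ 2) := by
    rw [abs_mul, abs_mul, abs_of_pos (pow_pos hx0 3), show |(-2 : ℝ)| = 2 by norm_num]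
    have : x ^ 3 * |phi x| ≤ x ^ 4 * (3 / 2 * sin x ^ 2) :=
      mul_le_mul h34 h1 (abs_nonneg _) (by positivity)
    linarith
  have b2 : |x ^ 4 * phi' x| ≤ 5 * (x ^ 4 * sin x ^ 2) := by
    rw [abs_mul, abs_of_pos (pow_pos hx0 4)]
    have := mul_le_mul_of_nonneg_left h2 (pow_pos hx0 4).le
    linarith
  have b3 : |x ^ 4 * phi x ^ 2| ≤ 3 * (x ^ 4 * sin x ^ 2) := by
    rw [abs_of_nonneg (by positivity), ← sq_abs (phi x)]
    have c1 : |phi x| ^ 2 ≤ (3 / 2 * sin x ^ 2) ^ 2 := pow_le_pow_left₀ (abs_nonneg _) h1 2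
    have c2 : (3 / 2 * sin x ^ 2) ^ 2 ≤ 3 * sin x ^ 2 := by nlinarith [sq_nonneg (sin x)]
    have := mul_le_mul_of_nonneg_left (c1.trans c2) (pow_pos hx0 4).le
    linarith
  have t1 := abs_add_le (-2 * x ^ 3 * phi x - x ^ 4 * phi' x) (x ^ 4 * phi x ^ 2)
  have t2 := abs_sub (-2 * x ^ 3 * phi x) (x ^ 4 * phi' x)
  linarith

lemma amgm {z : ℝ} : 11 * z ≤ 150 * z ^ 2 + 1 / 4 := by nlinarith [sq_nonneg (z - 11 / 300)]

theorem key {s g sn Wu Wv : ℝ} (hs : 0 < s) (hs1 : s ≤ 1) (hg : 1 / 2 ≤ g) (hg' : g ≤ 1)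
    (hsn : |sn| ≤ 1) (hu : 0 < Wu) (hv : 0 < Wv) (hu2 : Wu ^ 2 = 1 + be (s - ff s * g) ^ 2)
    (hv2 : Wv ^ 2 = 1 + be (s - ff s * g) ^ 2 * ((1 - deriv ff s * g) ^ 2 + (ff s * sn) ^ 2)) :
    deriv be (s - ff s * g) / Wu ^ 3 ≤
      (deriv be (s - ff s * g) * ((1 - deriv ff s * g) ^ 2 + (ff s * sn) ^ 2) +
        be (s - ff s * g) * ((ff s - deriv (deriv ff) s) * g) +
        be (s - ff s * g) ^ 3 * ((ff s * sn) ^ 2 * (-deriv (deriv ff) s * g) -
          2 * (1 - deriv ff s * g) * (ff s * sn) * (deriv ff s * sn) +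
          (1 - deriv ff s * g) ^ 2 * (ff s * g))) / Wv ^ 3 := by
  have hf := ff_pos hs
  have hfh := ff_le_half hs hs1
  set T := s - ff s * g with hT
  have hfg : ff s * g ≤ ff s := by nlinarith only [hf, hg']
  have hfg0 : 0 < ff s * g := by positivity
  have hT0 : s / 2 ≤ T := by linarith
  have hTp : 0 < T := by linarith
  have hTs : T ≤ s := by linarith
  rw [(hasDerivAt_be hTp).deriv]
  have hd1 := (hasDerivAt_ff hs).deriv
  have hd2 := (hasDerivAt_ff' hs).deriv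
  have hb0 := ff_bound' hs hs1 (k := 0) (by norm_num)
  have hb2 := ff_bound' hs hs1 (k := 2) (by norm_num)
  have hb4 := ff_bound' hs hs1 (k := 4) (by norm_num)
  have hsm := ff_small hs
  have hx1 : 1 ≤ s⁻¹ := (one_le_inv₀ hs).mpr hs1
  have hxy : s⁻¹ ≤ T⁻¹ := inv_anti₀ hTp hTs
  have hy2 : T⁻¹ ≤ 2 * s⁻¹ := by
    have := inv_anti₀ (by linarith : 0 < s / 2) hT0
    rw [inv_div, div_eq_mul_inv] at this; exact this
  have hdiff : T⁻¹ - s⁻¹ ≤ 2 * (ff s * s⁻¹ ^ 2) := by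
    have e : T⁻¹ - s⁻¹ = (ff s * g) * (s⁻¹ * T⁻¹) := by
      have : ff s * g = s - T := by rw [hT]; ring
      rw [this]; field_simp
    rw [e]
    have : s⁻¹ * T⁻¹ ≤ s⁻¹ * (2 * s⁻¹) := mul_le_mul_of_nonneg_left hy2 (by linarith)
    calc ff s * g * (s⁻¹ * T⁻¹) ≤ ff s * (s⁻¹ * (2 * s⁻¹)) :=
          mul_le_mul hfg this (by positivity) hf.le
      _ = _ := by ring
  set x := s⁻¹ with hx
  set y := T⁻¹ with hy
  set f := ff s with hfdef
  have hx0 : 0 < x := by linarith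
  have hy0 : 0 < y := by linarith
  have hsin : |sin y - sin x| ≤ 2 * (f * x ^ 2) := by
    have := abs_sin_sub_sin_le y x
    rw [abs_of_nonneg (by linarith : 0 ≤ y - x)] at this
    linarith
  have hE1 : exp (1 / 16 * x) ≤ exp (1 / 16 * y) := exp_le_exp.mpr (by linarith)
  have hE2 : exp (1 / 16 * y) ≤ 2 * exp (1 / 16 * x) := by
    have a1 : exp (1 / 16 * y) ≤ exp (1 / 2 + 1 / 16 * x) := exp_le_exp.mpr (by linarith)
    have a2 : exp (1 / 2 : ℝ) ≤ 2 := by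
      have : exp (1 / 2 : ℝ) ^ 2 = exp 1 := by rw [← exp_nat_mul]; norm_num
      nlinarith only [this, exp_one_lt_d9, exp_pos (1 / 2 : ℝ)]
    rw [exp_add] at a1
    nlinarith only [a1, a2, exp_pos (1 / 16 * x)]
  have hE3 : x ^ 4 / 1572864 ≤ exp (1 / 16 * x) := by
    have a2 := pow_div_factorial_le_exp (1 / 16 * x) (by positivity) 4
    norm_num [Nat.factorial] at a2
    have : (1 / 16 * x) ^ 4 = x ^ 4 / 65536 := by ring
    rw [this] at a2; linarith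
  set E := exp (1 / 16 * x) with hEdef
  have hEp : 0 < E := exp_pos _
  set B := KK * y ^ 2 * exp (1 / 16 * y) with hB
  have hK := KK_pos
  have hB1 : KK * x ^ 2 * E ≤ B := by rw [hB]; gcongr
  have hB2 : B ≤ 8 * (KK * x ^ 2 * E) := by
    have a1 : y ^ 2 ≤ (2 * x) ^ 2 := pow_le_pow_left₀ hy0.le hy2 2
    calc B ≤ KK * (2 * x) ^ 2 * (2 * E) := by rw [hB]; gcongr
      _ = _ := by ring
  have hBp : 0 < B := by positivity
  set c := 257 / 256 - 1025 / 2048 * sin y with hc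
  have hc1 : 1 / 2 ≤ c := by linarith [sin_le_one y]
  have hc2 : c ≤ 2 := by linarith [neg_one_le_sin y]
  set d := 1 + sin x / 2 with hd
  have hd1' : 1 / 2 ≤ d := by linarith [neg_one_le_sin x]
  have hd2' : d ≤ 3 / 2 := by linarith [sin_le_one x]
  have heta : eta y = -B * sin y * c := rfl
  have hs2 : sin x ^ 2 ≤ 1 := sin_sq_le_one x
  have hx26 : x ^ 2 ≤ x ^ 6 := pow_le_pow_right₀ hx1 (by norm_num)
  have hsec := second_le hx1
  refine core (a := B * c * d * x ^ 2 * f * sin x ^ 4)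
    (e := B * c * d * x ^ 2 * f * (2 * (f * x ^ 2))) (be_pos hTp) (be_sq_le hTp) hg hg' hsn hf
    (by linarith) ?_ ?_ ?_ (by positivity) (by positivity) ?_ ?_ hu hv hu2 hv2
  · rw [hd1, abs_mul, abs_mul, abs_of_pos hf, abs_of_pos (pow_pos hx0 2)]
    have a1 : |phi x| ≤ 3 / 2 := by linarith [abs_phi_le x]
    have : x ^ 2 * |phi x| * f = (f * x ^ 2) * |phi x| := by ring
    rw [this]
    have a2 : (f * x ^ 2) * |phi x| ≤ (6 / 10 ^ 13) * (3 / 2) :=
      mul_le_mul hb2 a1 (abs_nonneg _) (by norm_num)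
    linarith
  · rw [hd2, abs_mul, abs_of_pos hf]
    have a1 : x ^ 4 * sin x ^ 2 ≤ x ^ 4 := by nlinarith only [pow_pos hx0 4, hs2]
    have a2 := mul_le_mul_of_nonneg_right (hsec.trans (by linarith : _ ≤ 11 * x ^ 4)) hf.le
    linarith
  · rw [heta, abs_mul, abs_mul, abs_neg, abs_of_pos hBp, abs_of_pos (by linarith : 0 < c)]
    have a1 : B * |sin y| * c ≤ B * 1 * 2 := by
      have := abs_sin_le_one y
      gcongr
    have a2 : f * x ^ 2 * E ≤ 6 / 10 ^ 13 := le_trans (by gcongr) hsm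
    have a3 : B * |sin y| * c * f ≤ 16 * (KK * x ^ 2 * E) * f :=
      mul_le_mul_of_nonneg_right (by linarith) hf.le
    have a4 : 16 * (KK * x ^ 2 * E) * f = 16 * KK * (f * x ^ 2 * E) := by ring
    rw [a4] at a3
    unfold KK at a3
    linarith
  · rw [heta, hd1]
    have e1 : -(-B * sin y * c) * (x ^ 2 * phi x * f) =
        B * c * d * x ^ 2 * f * (sin x ^ 4 + (sin y - sin x) * sin x ^ 3) := by
      rw [hd]; unfold phi; ring
    rw [e1, ← mul_sub]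
    refine mul_le_mul_of_nonneg_left ?_ (by positivity)
    have a1 : |(sin y - sin x) * sin x ^ 3| ≤ 2 * (f * x ^ 2) := by
      rw [abs_mul, abs_pow]
      have b1 : |sin x| ^ 3 ≤ 1 := pow_le_one₀ (abs_nonneg _) (abs_sin_le_one x)
      calc |sin y - sin x| * |sin x| ^ 3 ≤ 2 * (f * x ^ 2) * 1 :=
            mul_le_mul hsin b1 (by positivity) (by positivity)
        _ = _ := mul_one _
    linarith [neg_abs_le ((sin y - sin x) * sin x ^ 3)]
  · rw [hd2]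
    have a1 : (KK * x ^ 2 * (x ^ 4 / 1572864)) * (1 / 2) * (1 / 2) * x ^ 2 * f * sin x ^ 4 ≤
        B * c * d * x ^ 2 * f * sin x ^ 4 := by
      have : KK * x ^ 2 * (x ^ 4 / 1572864) ≤ B := le_trans (by gcongr) hB1
      gcongr
    have a2 : B * c * d * x ^ 2 * f * (2 * (f * x ^ 2)) ≤
        (8 * (KK * x ^ 2 * E)) * 2 * (3 / 2) * x ^ 2 * f * (2 * (f * x ^ 2)) := by gcongr
    have a3 : (8 * (KK * x ^ 2 * E)) * 2 * (3 / 2) * x ^ 2 * f * (2 * (f * x ^ 2)) =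
        48 * KK * (f * x ^ 6 * E) * f := by ring
    have a4 : 48 * KK * (f * x ^ 6 * E) * f ≤ 48 * KK * (6 / 10 ^ 13) * f := by gcongr
    have a5 := mul_le_mul_of_nonneg_right ((le_abs_self _).trans hsec) hf.le
    have a6 := mul_le_mul_of_nonneg_right (amgm (z := x ^ 4 * sin x ^ 2)) hf.le
    have a7 : (KK * x ^ 2 * (x ^ 4 / 1572864)) * (1 / 2) * (1 / 2) * x ^ 2 * f * sin x ^ 4 =
        KK / 6291456 * ((x ^ 4 * sin x ^ 2) ^ 2 * f) := by ring
    have a8 : 0 ≤ (x ^ 4 * sin x ^ 2) ^ 2 * f := by positivity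
    rw [a7] at a1
    rw [a3] at a2
    unfold KK at a1 a2 a4
    nlinarith only [a1, a2, a4, a5, a6, a8, hf]

end Pool.Agent.H368Z.Hopf
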