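import Mathlib
import Pool.Agent.H368Z.HopfGeom
import Pool.Agent.H368Z.HopfKey

/-!
The counterexamples.
-/

namespace Pool.Agent.H368Z.Hopf

open Filter Topology Set Real
open scoped ContDiff

variable {d : ℕ}

/-- a function of the first two coordinates -/
def two (Φ : ℝ → ℝ → ℝ) : (Fin (d + 2) → ℝ) → ℝ := fun x => Φ (x 0) (x 1)

noncomputable def D1 (Φ : ℝ → ℝ → ℝ) : ℝ → ℝ → ℝ := fun a b => deriv (fun r => Φ r b) a
noncomputable def D2 (Φ : ℝ → ℝ → ℝ) : ℝ → ℝ → ℝ := fun a b => deriv (fun r => Φ a r) b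

lemma pd_zero (Φ : ℝ → ℝ → ℝ) : pd (0 : Fin (d + 2)) (two Φ) = two (D1 Φ) := by
  funext x; simp [pd, two, D1]

lemma pd_one (Φ : ℝ → ℝ → ℝ) : pd (1 : Fin (d + 2)) (two Φ) = two (D2 Φ) := by
  funext x; simp [pd, two, D2]

lemma pd_rest (Φ : ℝ → ℝ → ℝ) (j : Fin d) :
    pd (j.succ.succ : Fin (d + 2)) (two Φ) = two (fun _ _ => 0) := by
  funext x
  have h0 : (0 : Fin (d + 2)) ≠ j.succ.succ := (Fin.succ_ne_zero _).symm
  have h1 : (1 : Fin (d + 2)) ≠ j.succ.succ := by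
    rw [← Fin.succ_zero_eq_one]
    exact fun h => (Fin.succ_ne_zero _).symm (Fin.succ_injective _ h)
  simp [pd, two, Function.update_of_ne h0, Function.update_of_ne h1]

lemma pd_const (i : Fin (d + 2)) : pd i (two (fun _ _ => 0)) = two (fun _ _ => 0) := by
  funext x; simp [pd, two]

lemma sigma_two (Φ : ℝ → ℝ → ℝ) (x : Fin (d + 2) → ℝ)
    (hs : D1 (D2 Φ) (x 0) (x 1) = D2 (D1 Φ) (x 0) (x 1)) :
    sigma 1 (two Φ) x =
      ((1 + (D1 Φ (x 0) (x 1) ^ 2 + D2 Φ (x 0) (x 1) ^ 2)) *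
        (D1 (D1 Φ) (x 0) (x 1) + D2 (D2 Φ) (x 0) (x 1)) -
        (D1 Φ (x 0) (x 1) ^ 2 * D1 (D1 Φ) (x 0) (x 1) +
          2 * D1 Φ (x 0) (x 1) * D2 Φ (x 0) (x 1) * D1 (D2 Φ) (x 0) (x 1) +
          D2 Φ (x 0) (x 1) ^ 2 * D2 (D2 Φ) (x 0) (x 1))) /
        √(1 + (D1 Φ (x 0) (x 1) ^ 2 + D2 Φ (x 0) (x 1) ^ 2)) ^ 3 := by
  rw [sigma_one]
  · simp only [Fin.sum_univ_succ, Fin.succ_zero_eq_one, pd_zero, pd_one, pd_rest, pd_const]
    simp only [two, hs]
    simp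
    ring_nf
  · intro i j
    refine Fin.cases ?_ (fun i => Fin.cases ?_ (fun i => ?_) i) i <;>
    refine Fin.cases ?_ (fun j => Fin.cases ?_ (fun j => ?_) j) j <;>
    simp only [Fin.succ_zero_eq_one, pd_zero, pd_one, pd_rest, pd_const] <;>
    simp only [two, hs]

noncomputable def PhiU : ℝ → ℝ → ℝ := fun a _ => bb a
noncomputable def PhiV : ℝ → ℝ → ℝ := fun a b => bb (a - ff a * cos b)

lemma hff (a : ℝ) : HasDerivAt ff (deriv ff a) a :=
  (ff_smooth.differentiable (by simp) a).hasDerivAt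

lemma hff' (a : ℝ) : HasDerivAt (deriv ff) (deriv (deriv ff) a) a :=
  ((contDiff_infty_iff_deriv.mp ff_smooth).2.differentiable (by simp) a).hasDerivAt

lemma hbe (a : ℝ) : HasDerivAt be (deriv be a) a :=
  (be_smooth.differentiable (by simp) a).hasDerivAt

lemma hT1 (a b : ℝ) : HasDerivAt (fun r => r - ff r * cos b) (1 - deriv ff a * cos b) a :=
  (hasDerivAt_id a).sub ((hff a).mul_const _)

lemma hT2 (a b : ℝ) : HasDerivAt (fun r => a - ff a * cos r) (ff a * sin b) b := by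
  have := ((hasDerivAt_cos b).const_mul (ff a)).const_sub a
  simpa using this

lemma D1U : D1 PhiU = fun a _ => be a := by
  funext a b; exact (hasDerivAt_bb a).deriv
lemma D2U : D2 PhiU = fun _ _ => 0 := by
  funext a b; simp [D2, PhiU]

lemma D1V : D1 PhiV = fun a b => be (a - ff a * cos b) * (1 - deriv ff a * cos b) := by
  funext a b; exact ((hasDerivAt_bb _).comp a (hT1 a b)).deriv
lemma D2V : D2 PhiV = fun a b => be (a - ff a * cos b) * (ff a * sin b) := by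
  funext a b; exact ((hasDerivAt_bb _).comp b (hT2 a b)).deriv

lemma D11V (a b : ℝ) : D1 (D1 PhiV) a b =
    deriv be (a - ff a * cos b) * (1 - deriv ff a * cos b) ^ 2 +
      be (a - ff a * cos b) * (-deriv (deriv ff) a * cos b) := by
  rw [D1V]
  have h := (((hbe _).comp a (hT1 a b)).mul (((hff' a).mul_const (cos b)).const_sub 1)).deriv
  refine Eq.trans h ?_
  simp only [Function.comp]; ring

lemma D21V (a b : ℝ) : D2 (D1 PhiV) a b =
    deriv be (a - ff a * cos b) * (1 - deriv ff a * cos b) * (ff a * sin b) +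
      be (a - ff a * cos b) * (deriv ff a * sin b) := by
  rw [D1V]
  have h := (((hbe _).comp b (hT2 a b)).mul
    (((hasDerivAt_cos b).const_mul (deriv ff a)).const_sub 1)).deriv
  refine Eq.trans h ?_
  simp only [Function.comp]; ring

lemma D12V (a b : ℝ) : D1 (D2 PhiV) a b =
    deriv be (a - ff a * cos b) * (1 - deriv ff a * cos b) * (ff a * sin b) +
      be (a - ff a * cos b) * (deriv ff a * sin b) := by
  rw [D2V]
  have h := (((hbe _).comp a (hT1 a b)).mul ((hff a).mul_const (sin b))).deriv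
  refine Eq.trans h ?_
  simp only [Function.comp]

lemma D22V (a b : ℝ) : D2 (D2 PhiV) a b =
    deriv be (a - ff a * cos b) * (ff a * sin b) ^ 2 +
      be (a - ff a * cos b) * (ff a * cos b) := by
  rw [D2V]
  have h := (((hbe _).comp b (hT2 a b)).mul ((hasDerivAt_sin b).const_mul (ff a))).deriv
  refine Eq.trans h ?_
  simp only [Function.comp]; ring

lemma sigmaU (x : Fin (d + 2) → ℝ) :
    sigma 1 (two PhiU) x = deriv be (x 0) / √(1 + be (x 0) ^ 2) ^ 3 := by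
  rw [sigma_two]
  · rw [D1U, D2U]
    simp [D1, D2]
    ring_nf
  · rw [D1U, D2U]
    simp [D1, D2]

lemma compare (x z : Fin (d + 2) → ℝ) (hz : 0 < z 0) (hz1 : z 0 ≤ 1) (hc : 1 / 2 ≤ cos (z 1))
    (hxz : x 0 = z 0 - ff (z 0) * cos (z 1)) : sigma 1 (two PhiU) x ≤ sigma 1 (two PhiV) z := by
  rw [sigmaU, sigma_two _ _ (by rw [D12V, D21V]), D11V, D12V, D22V, D1V, D2V, hxz]
  have hk := key (s := z 0) (g := cos (z 1)) (sn := sin (z 1))
    (Wu := √(1 + be (z 0 - ff (z 0) * cos (z 1)) ^ 2))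
    (Wv := √(1 + ((be (z 0 - ff (z 0) * cos (z 1)) * (1 - deriv ff (z 0) * cos (z 1))) ^ 2 +
      (be (z 0 - ff (z 0) * cos (z 1)) * (ff (z 0) * sin (z 1))) ^ 2)))
    hz hz1 hc (cos_le_one _) (abs_sin_le_one _) (by positivity) (by positivity)
    (sq_sqrt (by positivity)) (by rw [sq_sqrt (by positivity)]; ring)
  refine hk.trans (le_of_eq ?_)
  congr 1
  ring

lemma cos_ge {k : ℕ} (y : Fin (k + 1) → ℝ) (hy : ∑ i, y i ^ 2 < 1) : 1 / 2 ≤ cos (y 0) := by
  have h1 : y 0 ^ 2 ≤ ∑ i, y i ^ 2 :=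
    Finset.single_le_sum (f := fun i => y i ^ 2) (fun i _ => sq_nonneg _) (Finset.mem_univ 0)
  have := one_sub_sq_div_two_le_cos (x := y 0)
  linarith

/-- All the required properties. -/
def Good {k : ℕ} (m : ℕ) (u v : (Fin (k + 1) → ℝ) → ℝ) : Prop :=
  ContDiff ℝ ∞ u ∧ ContDiff ℝ ∞ v ∧
  (∀ t y, 0 < t → t < 1 → ∑ i, y i ^ 2 < 1 →
    0 < v (pt t y) ∧ v (pt t y) < u (pt t y) ∧ 0 < pd 0 u (pt t y)) ∧
  (∀ y, u (pt 0 y) = 0 ∧ v (pt 0 y) = 0 ∧ pd 0 u (pt 0 y) = 0) ∧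
  (∀ t s y, 0 ≤ t → t ≤ 1 → 0 < s → s < 1 → ∑ i, y i ^ 2 < 1 → u (pt t y) = v (pt s y) →
    sigma m u (pt t y) ≤ sigma m v (pt s y)) ∧
  ContDiff ℝ ∞ (fun x : Fin (k + 1) → ℝ =>
    if 0 ≤ x 0 then v x else u (Function.update x 0 (-x 0)))

@[simp] lemma pt_zero {k : ℕ} (t : ℝ) (y : Fin k → ℝ) : pt t y 0 = t := rfl
@[simp] lemma pt_one {k : ℕ} (t : ℝ) (y : Fin (k + 1) → ℝ) : pt t y 1 = y 0 := rfl

lemma smoothV : ContDiff ℝ ∞ (two PhiV : (Fin (d + 2) → ℝ) → ℝ) :=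
  bb_smooth.comp ((contDiff_apply ℝ ℝ 0).sub ((ff_smooth.comp (contDiff_apply ℝ ℝ 0)).mul
    (contDiff_cos.comp (contDiff_apply ℝ ℝ 1))))

theorem good_one : Good (k := d + 1) 1 (two PhiU) (two PhiV) := by
  have hT : ∀ (s : ℝ) (y : Fin (d + 1) → ℝ), 0 < s → s < 1 → ∑ i, y i ^ 2 < 1 →
      0 < s - ff s * cos (y 0) ∧ s - ff s * cos (y 0) < s := by
    intro s y hs hs1 hy
    have h1 := cos_ge y hy
    have h2 := ff_pos hs
    have h3 := ff_le_half hs hs1.le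
    have h4 := cos_le_one (y 0)
    constructor <;> nlinarith
  have hb0 : bb 0 = 0 := bb_nonpos le_rfl
  refine ⟨bb_smooth.comp (contDiff_apply ℝ ℝ 0), smoothV, ?_, ?_, ?_, ?_⟩
  · intro t y ht ht1 hy
    obtain ⟨h1, h2⟩ := hT t y ht ht1 hy
    refine ⟨?_, bb_strictMono h1.le ht.le h2, ?_⟩
    · have := bb_strictMono (le_refl (0 : ℝ)) h1.le h1
      rw [hb0] at this; exact this
    · rw [pd_zero, D1U]; exact be_pos ht
  · intro y
    refine ⟨hb0, ?_, ?_⟩
    · simp [two, PhiV, ff_nonpos le_rfl, hb0]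
    · rw [pd_zero, D1U]; exact be_nonpos le_rfl
  · intro t s y ht _ hs hs1 hy h
    obtain ⟨h1, _⟩ := hT s y hs hs1 hy
    exact compare _ _ hs hs1.le (cos_ge y hy) (bb_strictMono.injOn ht h1.le h)
  · have : (fun x : Fin (d + 2) → ℝ =>
        if 0 ≤ x 0 then two PhiV x else two PhiU (Function.update x 0 (-x 0))) =
        fun x => two PhiV x + bb (-x 0) := by
      funext x
      split_ifs with h
      · rw [bb_nonpos (by linarith : -x 0 ≤ 0), add_zero]
      · push Not at h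
        simp [two, PhiU, PhiV, ff_nonpos h.le, bb_nonpos h.le]
    rw [this]
    exact smoothV.add (bb_smooth.comp (contDiff_apply ℝ ℝ 0).neg)

noncomputable def cub (c : ℝ) : ℝ → ℝ → ℝ := fun a _ => a ^ 2 + c * a ^ 3

lemma D1cub (c : ℝ) : D1 (cub c) = fun a _ => 2 * a + 3 * c * a ^ 2 := by
  funext a b
  have h := (((hasDerivAt_id a).pow 2).add (((hasDerivAt_id a).pow 3).const_mul c)).deriv
  refine Eq.trans h ?_
  simp; ring

lemma sigma_cub (c : ℝ) {m : ℕ} (hm : 2 ≤ m) (x : Fin (d + 2) → ℝ) :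
    sigma m (two (cub c)) x = 0 := by
  have h2 : D2 (cub c) = fun _ _ => 0 := by funext a b; simp [D2, cub]
  have h1 : ∀ i : Fin (d + 2), i ≠ 0 → pd i (two (cub c)) = two fun _ _ => 0 := by
    intro i
    refine Fin.cases (by simp) (fun i => Fin.cases ?_ (fun i => ?_) i) i
    · intro _; rw [Fin.succ_zero_eq_one, pd_one, h2]
    · intro _; rw [pd_rest]
  refine sigma_rank_one hm _ _ (fun i hi => by rw [h1 i hi]; rfl) fun i j hij => ?_
  by_cases hj : j = 0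
  · subst hj
    have hi : i ≠ 0 := by simpa using hij
    rw [pd_zero, D1cub]
    revert hi
    refine Fin.cases (by simp) (fun i => Fin.cases ?_ (fun i => ?_) i) i
    · intro _; rw [Fin.succ_zero_eq_one, pd_one]; simp [two, D2]
    · intro _; rw [pd_rest]; rfl
  · rw [h1 j hj, pd_const]; rfl

lemma smooth_cub (c : ℝ) : ContDiff ℝ ∞ (two (cub c) : (Fin (d + 2) → ℝ) → ℝ) :=
  ((contDiff_apply ℝ ℝ 0).pow 2).add (contDiff_const.mul ((contDiff_apply ℝ ℝ 0).pow 3))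

theorem good_two {m : ℕ} (hm : 2 ≤ m) :
    Good (k := d + 1) m (two (cub (1 / 2))) (two (cub (-1 / 2))) := by
  refine ⟨smooth_cub _, smooth_cub _, ?_, ?_, ?_, ?_⟩
  · intro t y ht ht1 _
    rw [pd_zero, D1cub]
    simp only [two, cub, pt_zero]
    have h3 : 0 < t ^ 3 := by positivity
    have h2 : t ^ 3 < t ^ 2 := by nlinarith [pow_pos ht 2]
    refine ⟨by linarith, by linarith, by positivity⟩
  · intro y
    rw [pd_zero, D1cub]
    simp [two, cub]
  · intro t s y _ _ _ _ _ _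
    rw [sigma_cub _ hm, sigma_cub _ hm]
  · have : (fun x : Fin (d + 2) → ℝ => if 0 ≤ x 0 then two (cub (-1 / 2)) x
        else two (cub (1 / 2)) (Function.update x 0 (-x 0))) = two (cub (-1 / 2)) := by
      funext x
      split_ifs with h
      · rfl
      · simp [two, cub]; ring
    rw [this]; exact smooth_cub _

theorem exists_good (k m : ℕ) (hk : 1 ≤ k) (hm : 1 ≤ m) :
    ∃ u v : (Fin (k + 1) → ℝ) → ℝ, Good m u v := by
  obtain ⟨d, rfl⟩ : ∃ d, k = d + 1 := ⟨k - 1, by omega⟩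
  rcases hm.eq_or_lt with rfl | h
  · exact ⟨_, _, good_one⟩
  · exact ⟨_, _, good_two h⟩

end Pool.Agent.H368Z.Hopf
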