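import Mathlib

/-!
Definitions for MP_4b482e_nt in the case of the split extension `G = 𝔾_m^s × E` of an elliptic
curve `E = ℂ / Λ`, with the invariant differentials `ξ_k = dZ_k / Z_k + c_k ω`.
-/

namespace Pool.Agent.H368Z.SemiAb

/-- The Weierstrass zeta function of the lattice (the term of the lattice point `0` is `1 / z`). -/
noncomputable def zeta (L : PeriodPair) (z : ℂ) : ℂ :=
  ∑' l : L.lattice, (1 / (z - l) + 1 / (l : ℂ) + z / (l : ℂ) ^ 2)

/-- The periods of the differentials `ξ_k = dZ_k / Z_k + c_k ω` on `𝔾_m^s × E`, and `2πi`. -/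
noncomputable def thirdPeriods {s : ℕ} (L : PeriodPair) (c : Fin s → ℂ) : Set ℂ :=
  {2 * Real.pi * Complex.I} ∪ Set.range (fun k => c k * L.ω₁) ∪ Set.range (fun k => c k * L.ω₂)

/-- The field `ℚ̄(Ω_G)`. -/
noncomputable def periodField {s : ℕ} (L : PeriodPair) (c : Fin s → ℂ) :
    IntermediateField ℚ ℂ :=
  IntermediateField.adjoin ℚ ({x | IsAlgebraic ℚ x} ∪
    {L.ω₁, L.ω₂, 2 * zeta L (L.ω₁ / 2), 2 * zeta L (L.ω₂ / 2)} ∪ thirdPeriods L c)

/-- The field `F` for the point `R = (e^{u_1}, …, e^{u_s}, P)`, `P = (℘ p, ℘' p)`: coordinates of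
`R` and components `p, ζ p, u_k + c_k p` of its generalized logarithm. -/
noncomputable def pointField {s : ℕ} (L : PeriodPair) (c u : Fin s → ℂ) (p : ℂ) :
    IntermediateField (periodField L c) ℂ :=
  IntermediateField.adjoin (periodField L c)
    ({L.weierstrassP p, L.derivWeierstrassP p, p, zeta L p} ∪
      Set.range (fun k => Complex.exp (u k)) ∪ Set.range (fun k => u k + c k * p))

/-- The number `t`: dimension of the `ℚ`-span of the integrals of the `ξ_k` modulo periods. -/
noncomputable def tdim {s : ℕ} (L : PeriodPair) (c u : Fin s → ℂ) (p : ℂ) : ℕ :=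
  Module.finrank ℚ (Submodule.span ℚ (Set.range fun k =>
    (Submodule.span ℚ (thirdPeriods L c)).mkQ (u k + c k * p)))

end Pool.Agent.H368Z.SemiAb
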