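import Mathlib
import Pool.Agent.H368Z.SemiAbDefs

namespace Pool.Agent.H368Z.SemiAb

open Cardinal

lemma exists_c : ∃ c : Fin 4 → ℂ, (∀ k, IsAlgebraic ℚ (c k)) ∧ LinearIndependent ℚ c := by
  have hζ := Complex.isPrimitiveRoot_exp 5 (by norm_num)
  set ζ := Complex.exp (2 * Real.pi * Complex.I / (5 : ℕ))
  have hint : IsIntegral ℚ ζ := (hζ.isIntegral (by norm_num)).tower_top
  have hdeg : (minpoly ℚ ζ).natDegree = 4 := by
    rw [← Polynomial.cyclotomic_eq_minpoly_rat hζ (by norm_num), Polynomial.natDegree_cyclotomic]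
    decide
  have h := linearIndependent_pow (K := ℚ) ζ
  rw [hdeg] at h
  exact ⟨fun k => ζ ^ (k : ℕ), fun k => (hint.pow _).isAlgebraic, h⟩

lemma finite_third {s : ℕ} (L : PeriodPair) (c : Fin s → ℂ) : (thirdPeriods L c).Finite :=
  ((Set.finite_singleton _).union (Set.finite_range _)).union (Set.finite_range _)

lemma exists_p {s : ℕ} (L : PeriodPair) (c : Fin s → ℂ) (hc : LinearIndependent ℚ c) :
    ∃ p : ℂ, p ∉ L.lattice ∧ tdim L c 0 p = s := by
  set V := Submodule.span ℚ (thirdPeriods L c) with hV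
  have hVc : (V : Set ℂ).Countable := by
    have : Module.Finite ℚ V := Module.Finite.span_of_finite ℚ (finite_third L c)
    have : Countable V := Finsupp.Countable.of_moduleFinite (R := ℚ)
    exact Set.countable_coe_iff.mp this
  have hLc : (L.lattice : Set ℂ).Countable :=
    Set.countable_coe_iff.mp (L.latticeEquivProd.toEquiv.countable_iff.mpr inferInstance)
  have hbad : ((L.lattice : Set ℂ) ∪
      ⋃ m : Fin s → ℚ, (fun v => v / ∑ k, m k • c k) '' (V : Set ℂ)).Countable :=
    hLc.union (Set.countable_iUnion fun m => hVc.image _)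
  obtain ⟨p, hp⟩ : ∃ p : ℂ, p ∉ ((L.lattice : Set ℂ) ∪
      ⋃ m : Fin s → ℚ, (fun v => v / ∑ k, m k • c k) '' (V : Set ℂ)) := by
    by_contra h
    push Not at h
    exact not_countable_complex (hbad.mono fun x _ => h x)
  rw [Set.mem_union, not_or] at hp
  refine ⟨p, hp.1, ?_⟩
  have hli : LinearIndependent ℚ fun k => V.mkQ ((0 : Fin s → ℂ) k + c k * p) := by
    rw [Fintype.linearIndependent_iff]
    intro m hm
    have h1 : (∑ k, m k • c k) * p ∈ V := by
      rw [← Submodule.Quotient.mk_eq_zero, ← V.mkQ_apply, ← hm, Finset.sum_mul, map_sum]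
      refine Finset.sum_congr rfl fun k _ => ?_
      rw [← map_smul]; simp
    by_cases h0 : ∑ k, m k • c k = 0
    · exact Fintype.linearIndependent_iff.mp hc m h0
    · exfalso
      refine hp.2 (Set.mem_iUnion.mpr ⟨m, _, h1, ?_⟩)
      field_simp
  unfold tdim
  rw [finrank_span_eq_card hli, Fintype.card_fin]

lemma trdeg_le {s : ℕ} (L : PeriodPair) (h2 : IsAlgebraic ℚ L.g₂) (h3 : IsAlgebraic ℚ L.g₃)
    (c : Fin s → ℂ) (hc : ∀ k, IsAlgebraic ℚ (c k)) (p : ℂ) (hp : p ∉ L.lattice) :
    Algebra.trdeg (periodField L c) (pointField L c 0 p) ≤ 3 := by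
  set K := periodField L c with hK
  have hmem : ∀ x : ℂ, IsAlgebraic ℚ x → x ∈ K := fun x hx =>
    IntermediateField.subset_adjoin _ _ (Or.inl (Or.inl hx))
  set S : Set ℂ := {L.weierstrassP p, p, zeta L p} with hS
  set M := IntermediateField.adjoin K S with hM
  have hKM : ∀ x : ℂ, x ∈ K → x ∈ M := fun x hx => M.algebraMap_mem ⟨x, hx⟩
  have hP : L.weierstrassP p ∈ M := IntermediateField.subset_adjoin _ _ (by simp [hS])
  have hpM : p ∈ M := IntermediateField.subset_adjoin _ _ (by simp [hS])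
  have hz : zeta L p ∈ M := IntermediateField.subset_adjoin _ _ (by simp [hS])
  have halg : ∀ x ∈ M, IsAlgebraic M x := fun x hx => isAlgebraic_algebraMap (⟨x, hx⟩ : M)
  have hP' : IsAlgebraic M (L.derivWeierstrassP p) := by
    refine IsAlgebraic.of_pow (n := 2) (by norm_num) (halg _ ?_)
    rw [L.derivWeierstrassP_sq p hp]
    exact M.sub_mem (M.sub_mem (M.mul_mem (by simpa using M.natCast_mem 4) (M.pow_mem hP 3))
      (M.mul_mem (hKM _ (hmem _ h2)) hP)) (hKM _ (hmem _ h3))
  set N := (algebraicClosure M ℂ).restrictScalars K with hN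
  have hN' : ∀ x : ℂ, IsAlgebraic M x → x ∈ N := fun x hx =>
    (IntermediateField.mem_restrictScalars K).mpr (mem_algebraicClosure_iff.mpr hx)
  have hle : pointField L c 0 p ≤ N := by
    unfold pointField
    rw [IntermediateField.adjoin_le_iff]
    rintro x ((hx | ⟨k, rfl⟩) | ⟨k, rfl⟩)
    · simp only [Set.mem_insert_iff, Set.mem_singleton_iff] at hx
      rcases hx with rfl | rfl | rfl | rfl
      · exact hN' _ (halg _ hP)
      · exact hN' _ hP'
      · exact hN' _ (halg _ hpM)
      · exact hN' _ (halg _ hz)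
    · exact hN' _ (halg _ (by simpa using M.one_mem))
    · exact hN' _ (halg _ (by simpa using M.mul_mem (hKM _ (hmem _ (hc k))) hpM))
  have h1 : Algebra.trdeg K (pointField L c 0 p) ≤ Algebra.trdeg K N :=
    trdeg_le_of_injective (IntermediateField.inclusion hle) (IntermediateField.inclusion_injective hle)
  have h4 : Algebra.trdeg K M + Algebra.trdeg M (algebraicClosure M ℂ) =
      Algebra.trdeg K (algebraicClosure M ℂ) := trdeg_add_eq K M
  have h5 : Algebra.trdeg M (algebraicClosure M ℂ) = 0 := trdeg_eq_zero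
  have h6 : Algebra.trdeg K M ≤ 3 := by
    have : Algebra.trdeg K M ≤ #(((↑) : M → ℂ) ⁻¹' S) := by
      have htop : IntermediateField.adjoin K (((↑) : M → ℂ) ⁻¹' S) = ⊤ := by
        rw [← IntermediateField.lift_inj, IntermediateField.lift_top,
          IntermediateField.lift_adjoin, Set.image_preimage_eq_of_subset]
        intro x hx
        exact ⟨⟨x, IntermediateField.subset_adjoin _ _ hx⟩, rfl⟩
      have : Algebra.IsAlgebraic (Algebra.adjoin K (((↑) : M → ℂ) ⁻¹' S)) M := by
        refine ⟨fun x => IntermediateField.isAlgebraic_adjoin_iff.mp ?_⟩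
        exact isAlgebraic_algebraMap
          (⟨x, htop ▸ IntermediateField.mem_top⟩ :
            IntermediateField.adjoin K (((↑) : M → ℂ) ⁻¹' S))
      exact Algebra.IsAlgebraic.trdeg_le_cardinalMk K _
    refine this.trans ((mk_preimage_of_injective _ _ Subtype.val_injective).trans ?_)
    rw [hS]
    refine (mk_insert_le).trans ?_
    have := mk_insert_le (s := ({zeta L p} : Set ℂ)) (a := p)
    rw [mk_singleton] at this
    calc _ ≤ (1 + 1) + 1 := add_le_add_left this 1
      _ = 3 := by norm_num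
  rw [h5, add_zero] at h4
  exact h1.trans ((le_of_eq h4.symm).trans h6)

lemma G_scale (L L' : PeriodPair) (a : ℂ) (ha : a ≠ 0)
    (h : ∀ x : ℂ, a * x ∈ L'.lattice ↔ x ∈ L.lattice) (n : ℕ) :
    L'.G n = (a ^ n)⁻¹ * L.G n := by
  let e : L.lattice ≃ L'.lattice :=
    { toFun := fun x => ⟨a * x, (h x).mpr x.2⟩
      invFun := fun y => ⟨a⁻¹ * y, (h _).mp (by rw [mul_inv_cancel_left₀ ha]; exact y.2)⟩
      left_inv := fun x => Subtype.ext (by simp [ha])
      right_inv := fun y => Subtype.ext (by simp [ha]) }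
  unfold PeriodPair.G
  rw [← e.tsum_eq, ← tsum_mul_left]
  refine tsum_congr fun l => ?_
  simp only [e, Equiv.coe_fn_mk, mul_pow, mul_inv]

/-- The square lattice `a ℤ[i]`. -/
def sq (a : ℂ) (ha : a ≠ 0) : PeriodPair where
  ω₁ := a
  ω₂ := a * Complex.I
  indep := by
    rw [LinearIndependent.pair_iff]
    intro s t hst
    have h1 : a * ((s : ℂ) + t * Complex.I) = 0 := by
      rw [← hst]; simp only [Complex.real_smul]; ring
    have h2 := (mul_eq_zero.mp h1).resolve_left ha
    have h3 := congrArg Complex.re h2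
    have h4 := congrArg Complex.im h2
    simp at h3 h4
    exact ⟨h3, h4⟩

lemma sq_G6 (a : ℂ) (ha : a ≠ 0) : (sq a ha).G 6 = 0 := by
  have h := G_scale (sq a ha) (sq a ha) Complex.I Complex.I_ne_zero (fun x => by
    simp only [PeriodPair.mem_lattice, sq]
    constructor
    · rintro ⟨m, n, hmn⟩
      refine ⟨n, -m, ?_⟩
      push_cast
      linear_combination (-Complex.I) * hmn + (n * a - x) * Complex.I_mul_I
    · rintro ⟨m, n, hmn⟩
      refine ⟨-n, m, ?_⟩
      push_cast
      linear_combination Complex.I * hmn - n * a * Complex.I_mul_I) 6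
  have h6 : (Complex.I ^ 6)⁻¹ = -1 := by
    rw [show Complex.I ^ 6 = -1 by
      rw [show 6 = 2 * 3 by rfl, pow_mul, Complex.I_sq]; norm_num]
    norm_num
  rw [h6] at h
  linear_combination h / 2

lemma exists_L : ∃ L : PeriodPair, IsAlgebraic ℚ L.g₂ ∧ IsAlgebraic ℚ L.g₃ := by
  have h3 : ∀ (a : ℂ) (ha : a ≠ 0), IsAlgebraic ℚ (sq a ha).g₃ := fun a ha => by
    unfold PeriodPair.g₃
    rw [sq_G6, mul_zero]
    exact isAlgebraic_zero
  by_cases h0 : (sq 1 one_ne_zero).G 4 = 0
  · refine ⟨sq 1 one_ne_zero, ?_, h3 _ _⟩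
    unfold PeriodPair.g₂
    rw [h0, mul_zero]
    exact isAlgebraic_zero
  · obtain ⟨a, ha⟩ := IsAlgClosed.exists_pow_nat_eq ((sq 1 one_ne_zero).G 4) (n := 4) (by norm_num)
    have ha0 : a ≠ 0 := by
      rintro rfl
      exact h0 (by rw [← ha]; norm_num)
    refine ⟨sq a ha0, ?_, h3 _ _⟩
    have h := G_scale (sq 1 one_ne_zero) (sq a ha0) a ha0 (fun x => by
      simp only [PeriodPair.mem_lattice, sq]
      constructor
      · rintro ⟨m, n, hmn⟩
        refine ⟨m, n, mul_left_cancel₀ ha0 ?_⟩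
        linear_combination hmn
      · rintro ⟨m, n, hmn⟩
        refine ⟨m, n, ?_⟩
        linear_combination a * hmn) 4
    unfold PeriodPair.g₂
    rw [h, ha, inv_mul_cancel₀ h0, mul_one]
    exact_mod_cast isAlgebraic_natCast (R := ℚ) (A := ℂ) 60

end Pool.Agent.H368Z.SemiAb
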