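import Mathlib

/-!
Definitions for MP_4b482e_nt in the semi-elliptic case, in Serre's model: `E = ℂ / Λ`, the
extension `G` of `E` by `𝔾_m^s` attached to the points `Q_k = exp_E (q k)` has exponential map
`(z, t) ↦ (℘ z, ℘' z, e^{t_k} f_{q_k}(z))`, and `ξ_{Q_k} = dt_k`.
-/

namespace Pool.Agent.H368Z.Serre

/-- The Weierstrass zeta function of the lattice (the term of the lattice point `0` is `1 / z`). -/
noncomputable def zeta (L : PeriodPair) (z : ℂ) : ℂ :=
  ∑' l : L.lattice, (1 / (z - l) + 1 / (l : ℂ) + z / (l : ℂ) ^ 2)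

/-- The Weierstrass sigma function (the factor of the lattice point `0` in the product is `1`). -/
noncomputable def sigma (L : PeriodPair) (z : ℂ) : ℂ :=
  z * ∏' l : L.lattice, (1 - z / l) * Complex.exp (z / l + (z / l) ^ 2 / 2)

/-- Serre's function `f_q(z) = σ(z + q) / (σ(z) σ(q)) e^{-ζ(q) z}`. -/
noncomputable def serre (L : PeriodPair) (q z : ℂ) : ℂ :=
  sigma L (z + q) / (sigma L z * sigma L q) * Complex.exp (-zeta L q * z)

/-- The quasi-period `η_1`. -/
noncomputable def eta₁ (L : PeriodPair) : ℂ := 2 * zeta L (L.ω₁ / 2)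

/-- The quasi-period `η_2`. -/
noncomputable def eta₂ (L : PeriodPair) : ℂ := 2 * zeta L (L.ω₂ / 2)

/-- The periods `η_j q_k - ω_j ζ(q_k)` of the differentials of the third kind, and `2πi`. -/
noncomputable def thirdPeriods {s : ℕ} (L : PeriodPair) (q : Fin s → ℂ) : Set ℂ :=
  {2 * Real.pi * Complex.I} ∪ Set.range (fun k => eta₁ L * q k - L.ω₁ * zeta L (q k)) ∪
    Set.range (fun k => eta₂ L * q k - L.ω₂ * zeta L (q k))

/-- The field `ℚ̄(Ω_G)`. -/
noncomputable def periodField {s : ℕ} (L : PeriodPair) (q : Fin s → ℂ) :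
    IntermediateField ℚ ℂ :=
  IntermediateField.adjoin ℚ ({x | IsAlgebraic ℚ x} ∪
    {L.ω₁, L.ω₂, eta₁ L, eta₂ L} ∪ thirdPeriods L q)

/-- The field `F` for the point `R = exp_G (p, t)`: coordinates `℘ p, ℘' p, e^{t_k} f_{q_k}(p)` of
`R` and components `p, ζ p, t_k` of its generalized logarithm. -/
noncomputable def pointField {s : ℕ} (L : PeriodPair) (q t : Fin s → ℂ) (p : ℂ) :
    IntermediateField (periodField L q) ℂ :=
  IntermediateField.adjoin (periodField L q)
    ({L.weierstrassP p, L.derivWeierstrassP p, p, zeta L p} ∪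
      Set.range (fun k => Complex.exp (t k) * serre L (q k) p) ∪ Set.range t)

/-- The number `t`: dimension of the `ℚ`-span of the integrals `t_k` of the `ξ_{Q_k}` modulo the
`ℚ`-span of the periods of the third kind. -/
noncomputable def tdim {s : ℕ} (L : PeriodPair) (q t : Fin s → ℂ) : ℕ :=
  Module.finrank ℚ (Submodule.span ℚ (Set.range fun k =>
    (Submodule.span ℚ (thirdPeriods L q)).mkQ (t k)))

end Pool.Agent.H368Z.Serre
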