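import Mathlib
import Pool.Agent.H368Z.SerreDefs
import Pool.Agent.Helper620.Wg.KZ

namespace Pool.Agent.H368Z.Serre

open Complex Filter Topology Set

/-- elementary factor -/
noncomputable def fac (w : ℂ) : ℂ := (1 - w) * Complex.exp (w + w ^ 2 / 2)

lemma fac_bound (w : ℂ) (hw : ‖w‖ ≤ 1 / 2) : ‖fac w - 1‖ ≤ 2 * ‖w‖ ^ 3 := by
  have hw1 : ‖-w‖ < 1 := by rw [norm_neg]; linarith
  have h := Complex.norm_log_sub_logTaylor_le 2 hw1
  have hT : Complex.logTaylor (2 + 1) (-w) = -w - w ^ 2 / 2 := by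
    simp [Complex.logTaylor_succ, Complex.logTaylor_zero]
    ring
  rw [hT, norm_neg] at h
  have hne : 1 + -w ≠ 0 := by
    intro e
    have : w = 1 := by linear_combination -e
    rw [this] at hw
    norm_num at hw
  set u := Complex.log (1 + -w) - (-w - w ^ 2 / 2) with hu
  have hfac : fac w = Complex.exp u := by
    rw [hu, sub_eq_add_neg (Complex.log _), Complex.exp_add, Complex.exp_log hne, fac]
    congr 2
    ring
  have h0 : 0 ≤ ‖w‖ := norm_nonneg w
  have hinv : (1 - ‖w‖)⁻¹ ≤ 2 := by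
    rw [inv_le_comm₀ (by linarith) (by norm_num)]; linarith
  have h3 : 0 ≤ ‖w‖ ^ 3 := by positivity
  have hu1 : ‖u‖ ≤ ‖w‖ ^ 3 := by
    refine h.trans ?_
    have : ‖w‖ ^ 3 * (1 - ‖w‖)⁻¹ ≤ ‖w‖ ^ 3 * 2 := mul_le_mul_of_nonneg_left hinv h3
    norm_num
    linarith
  have hw3 : ‖w‖ ^ 3 ≤ 1 := pow_le_one₀ h0 (by linarith)
  rw [hfac]
  exact (Complex.norm_exp_sub_one_le (hu1.trans hw3)).trans (by linarith)

variable (L : PeriodPair)

lemma fac_ev (r : ℝ) (hr : 0 < r) : ∀ᶠ l : L.lattice in cofinite, ∀ z ∈ Metric.ball (0 : ℂ) r,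
    ‖fac (z / l) - 1‖ ≤ 2 * r ^ 3 * ‖l‖ ^ (-3 : ℝ) := by
  refine (isCompact_iff_finite.mp (isCompact_closedBall (0 : L.lattice) (2 * r))).subset ?_
  intro l hl
  simp only [Metric.mem_closedBall, dist_zero_right]
  by_contra hlt
  push Not at hlt
  apply hl
  intro z hz
  have hz' : ‖z‖ < r := by simpa using hz
  have hl' : 2 * r < ‖(l : ℂ)‖ := hlt
  have hl0 : 0 < ‖(l : ℂ)‖ := by linarith
  have h1 : ‖z / l‖ ≤ 1 / 2 := by
    rw [norm_div, div_le_iff₀ hl0]; linarith
  refine (fac_bound _ h1).trans ?_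
  have e : ‖l‖ ^ (-3 : ℝ) = (‖(l : ℂ)‖ ^ 3)⁻¹ := by
    rw [Real.rpow_neg (norm_nonneg _)]
    norm_cast
  rw [e, norm_div, div_pow, mul_assoc, ← div_eq_mul_inv]
  gcongr

lemma summable_bd (r : ℝ) : Summable fun l : L.lattice => 2 * r ^ 3 * ‖l‖ ^ (-3 : ℝ) :=
  (ZLattice.summable_norm_rpow _ _ (by simp; norm_num)).mul_left _

lemma fac_diff (l : ℂ) : Differentiable ℂ fun z : ℂ => fac (z / l) := by
  unfold fac; fun_prop

lemma hasProd_fac (r : ℝ) (hr : 0 < r) :
    HasProdLocallyUniformlyOn (fun (l : L.lattice) (z : ℂ) => fac (z / l))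
      (fun z => ∏' l : L.lattice, fac (z / l)) (Metric.ball 0 r) := by
  have h := Summable.hasProdLocallyUniformlyOn_one_add
    (f := fun (l : L.lattice) (z : ℂ) => fac (z / l) - 1) Metric.isOpen_ball (summable_bd L r)
    (fac_ev L r hr) (fun l => ((fac_diff l).continuous.sub continuous_const).continuousOn)
  simpa only [add_sub_cancel] using h

/-- the infinite product -/
noncomputable def prd (z : ℂ) : ℂ := ∏' l : L.lattice, fac (z / l)

lemma sigma_eq (z : ℂ) : sigma L z = z * prd L z := rfl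

lemma prd_diff : Differentiable ℂ (prd L) := by
  intro z
  have hr : 0 < ‖z‖ + 1 := by positivity
  have h := (hasProd_fac L _ hr)
  rw [hasProdLocallyUniformlyOn_iff_tendstoLocallyUniformlyOn] at h
  have h2 := h.differentiableOn (.of_forall fun s => by
    have : Differentiable ℂ fun z : ℂ => ∏ l ∈ s, fac (z / (l : ℂ)) :=
      Differentiable.fun_finsetProd fun l _ => fac_diff l
    exact this.differentiableOn) Metric.isOpen_ball
  exact h2.differentiableAt (Metric.isOpen_ball.mem_nhds (by simp))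

lemma prd_zero : prd L 0 = 1 := by simp [prd, fac]

lemma fac_ne {z : ℂ} (hz : z ∉ L.lattice) (l : L.lattice) : fac (z / l) ≠ 0 := by
  refine mul_ne_zero ?_ (Complex.exp_ne_zero _)
  by_cases hl : (l : ℂ) = 0
  · simp [hl]
  · intro e
    have : z = l := by field_simp at e; linear_combination -e
    exact hz (this ▸ l.2)

lemma prd_ne {z : ℂ} (hz : z ∉ L.lattice) : prd L z ≠ 0 := by
  have hr : 0 < ‖z‖ + 1 := by positivity
  have h := tprod_one_add_ne_zero_of_summable (f := fun l : L.lattice => fac (z / l) - 1)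
    (fun l => by simpa using fac_ne L hz l)
    (Summable.of_norm_bounded_eventually (summable_bd L (‖z‖ + 1))
      ((fac_ev L _ hr).mono fun l hl => by simpa using hl z (by simp)))
  unfold prd
  simpa only [add_sub_cancel] using h

lemma sigma_ne {z : ℂ} (hz : z ∉ L.lattice) : sigma L z ≠ 0 :=
  mul_ne_zero (fun e => hz (e ▸ L.lattice.zero_mem)) (prd_ne L hz)

lemma logDeriv_fac {z : ℂ} (hz : z ∉ L.lattice) (l : L.lattice) :
    logDeriv (fun z : ℂ => fac (z / l)) z =
      if l.1 = 0 then 0 else (1 / (z - l) + 1 / l + z / l ^ 2) := by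
  split_ifs with hl
  · simp [hl, fac]
  · have hzl : z - l ≠ 0 := fun e => hz ((sub_eq_zero.mp e) ▸ l.2)
    have h1 : HasDerivAt (fun z : ℂ => z / (l : ℂ)) (1 / l) z := (hasDerivAt_id z).div_const _
    have h2 := (h1.const_sub 1).fun_mul (h1.fun_add ((h1.fun_pow 2).div_const 2)).cexp
    have h3 : 1 - z / l ≠ 0 := by
      intro e
      apply hzl
      field_simp at e
      linear_combination -e
    rw [logDeriv_apply]
    unfold fac
    rw [h2.deriv]
    have hlz : (l : ℂ) - z ≠ 0 := fun e => hzl (by linear_combination -e)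
    have he := Complex.exp_ne_zero (z / l + (z / l) ^ 2 / 2)
    generalize Complex.exp (z / l + (z / l) ^ 2 / 2) = E at he ⊢
    simp only [Nat.cast_ofNat, Nat.add_one_sub_one, pow_one]
    field_simp
    ring

lemma zeta_eq_zE (z : ℂ) : zeta L z = Wg.zE L (L.ω₁ / 2) z := by
  unfold zeta Wg.zE
  congr with l
  rw [if_neg]
  intro e
  exact L.ω₁_div_two_notMem_lattice (e ▸ l.2)

lemma zeta_split (z : ℂ) : zeta L z = 1 / z + Wg.zE L 0 z := by
  classical
  have hs : Summable fun l : L.lattice => (1 / (z - l) + 1 / (l : ℂ) + z / (l : ℂ) ^ 2) := by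
    have := ((Wg.hs_zE L (L.ω₁ / 2)).hasSum (x := z)).summable
    refine this.congr fun l => ?_
    rw [if_neg]
    intro e
    exact L.ω₁_div_two_notMem_lattice (e ▸ l.2)
  unfold zeta Wg.zE
  rw [hs.tsum_eq_add_tsum_ite 0]
  congr 1
  · simp
  · congr with l
    simp

lemma hasDerivAt_zeta {z : ℂ} (hz : z ∉ L.lattice) :
    HasDerivAt (zeta L) (-L.weierstrassP z) z := by
  have hω := L.ω₁_div_two_notMem_lattice
  have hmem : z ∈ ((L.lattice : Set ℂ) \ {L.ω₁ / 2})ᶜ := fun h => hz h.1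
  have h1 := (Wg.diff_zE L (L.ω₁ / 2)).differentiableAt
    (L.isOpen_compl_lattice_sdiff.mem_nhds hmem)
  have h2 := Wg.deriv_zE L (L.ω₁ / 2) hmem
  have h3 := h1.hasDerivAt
  rw [h2] at h3
  have e : zeta L = Wg.zE L (L.ω₁ / 2) := funext (zeta_eq_zE L)
  rw [e]
  simpa only [L.weierstrassPExcept_of_notMem _ hω] using h3

lemma zeta_neg (z : ℂ) : zeta L (-z) = -zeta L z := by
  unfold zeta
  rw [← tsum_neg, ← (Equiv.neg L.lattice).tsum_eq]
  congr with l
  simp only [Equiv.neg_apply, NegMemClass.coe_neg]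
  rw [show -z - -(l : ℂ) = -(z - l) by ring, div_neg, div_neg]
  ring

lemma hasDerivAt_sigma {z : ℂ} (hz : z ∉ L.lattice) :
    HasDerivAt (sigma L) (zeta L z * sigma L z) z := by
  have hr : 0 < ‖z‖ + 1 := by positivity
  have hz0 : z ≠ 0 := fun e => hz (e ▸ L.lattice.zero_mem)
  have hsum : Summable fun l : L.lattice => logDeriv (fun z : ℂ => fac (z / l)) z := by
    simp only [logDeriv_fac L hz]
    exact ((Wg.hs_zE L 0).hasSum (x := z)).summable
  have h := logDeriv_tprod_eq_tsum (s := Metric.ball 0 (‖z‖ + 1)) Metric.isOpen_ball (x := z)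
    (by simp) (f := fun (l : L.lattice) (z : ℂ) => fac (z / l)) (fac_ne L hz)
    (fun l => (fac_diff l).differentiableOn) hsum ⟨_, hasProd_fac L _ hr⟩ (prd_ne L hz)
  simp only [logDeriv_fac L hz] at h
  have h' : deriv (prd L) z / prd L z = Wg.zE L 0 z := h
  have hp := prd_ne L hz
  have h2 := (hasDerivAt_id z).fun_mul (prd_diff L z).hasDerivAt
  refine h2.congr_deriv ?_
  rw [zeta_split, sigma_eq, ← h']
  simp only [id]
  field_simp

lemma sigma_diff : Differentiable ℂ (sigma L) := differentiable_id.mul (prd_diff L)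

end Pool.Agent.H368Z.Serre
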