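import Mathlib
import Pool.Agent.H368Z.SerreSigma
import Pool.Agent.Helper620.Wg.KI
import Pool.Agent.Helper620.Wg.KS
import Pool.Agent.Helper487.ECM.Addition

namespace Pool.Agent.H368Z.Serre

open Complex Filter Topology Set Pool.Agent.Helper487.ECM

variable (L : PeriodPair)

/-- generic points -/
def U (q : ℂ) : Set ℂ := {z | z ∉ L.lattice ∧ L.weierstrassP z ≠ L.weierstrassP q}

lemma U_open (q : ℂ) : IsOpen (U L q) := by
  have h : ContinuousOn L.weierstrassP (L.lattice : Set ℂ)ᶜ :=
    L.differentiableOn_weierstrassP.continuousOn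
  exact h.isOpen_inter_preimage L.isClosed_lattice.isOpen_compl
    (isOpen_compl_singleton (x := L.weierstrassP q))

lemma U_compl_countable {q : ℂ} (hq : q ∉ L.lattice) : (U L q)ᶜ.Countable := by
  have hL := Wg.wp_inj_count L
  refine ((hL.union (hL.image fun l => l + q)).union (hL.image fun l => l - q)).mono ?_
  intro z hz
  by_cases hzL : z ∈ L.lattice
  · exact Or.inl (Or.inl hzL)
  · have h : L.weierstrassP z = L.weierstrassP q := by
      by_contra h
      exact hz ⟨hzL, h⟩
    rcases Wg.wp_inj L z q hzL hq h with h | h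
    · exact Or.inl (Or.inr ⟨_, h, by ring⟩)
    · exact Or.inr ⟨_, h, by ring⟩

lemma U_preconn {q : ℂ} (hq : q ∉ L.lattice) : IsPreconnected (U L q) := by
  simpa using Wg.wp_inj_conn _ (U_compl_countable L hq)

lemma U_const {q : ℂ} (hq : q ∉ L.lattice) {f : ℂ → ℂ} (hf : ∀ z ∈ U L q, HasDerivAt f 0 z)
    {x y : ℂ} (hx : x ∈ U L q) (hy : y ∈ U L q) : f x = f y :=
  (U_open L q).is_const_of_deriv_eq_zero (U_preconn L hq)
    (fun z hz => (hf z hz).differentiableAt.differentiableWithinAt)
    (fun z hz => (hf z hz).deriv) hx hy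

lemma neg_notMem {z : ℂ} (hz : z ∉ L.lattice) : -z ∉ L.lattice := fun h => hz (by simpa using h)

lemma add_notMem {z q : ℂ} (hz : z ∈ U L q) : z + q ∉ L.lattice := by
  have := sub_mem_Dom L (z := z) (w := -q) (by
    rw [wp_neg, wp_zero_eq]; exact hz.2)
  simpa [Dom] using this

/-- half slope of the chord -/
noncomputable def slp (z q : ℂ) : ℂ :=
  (L.derivWeierstrassP z - L.derivWeierstrassP q) / (2 * (L.weierstrassP z - L.weierstrassP q))

lemma slp_eq (z q : ℂ) : slp L z q = Q L z (-q) := by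
  unfold slp Q
  rw [wp_neg, wp_one_neg, wp_zero_eq, wp_one_eq, sub_eq_add_neg]

/-- defect in the addition formula -/
noncomputable def dfc (z q : ℂ) : ℂ := zeta L (z + q) - zeta L z - zeta L q - slp L z q

lemma dfc_deriv {z q : ℂ} (hq : q ∉ L.lattice) (hz : z ∈ U L q) :
    HasDerivAt (fun z => dfc L z q) 0 z := by
  have h1 := (hasDerivAt_zeta L (add_notMem L hz)).comp_add_const z q
  have h2 := hasDerivAt_zeta L hz.1
  have h3 := hasDerivAt_Q_left L (z := z) (w := -q) hz.1 (neg_notMem L hq) (by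
    rw [wp_neg, wp_zero_eq]; exact hz.2)
  have h4 := ((h1.fun_sub h2).sub_const (zeta L q)).fun_sub h3
  unfold dfc
  simp only [slp_eq]
  refine h4.congr_deriv ?_
  rw [wp_zero_eq, sub_neg_eq_add]
  ring_nf

lemma dfc_symm (z q : ℂ) : dfc L z q = dfc L q z := by
  unfold dfc slp
  rw [add_comm z q, ← neg_sub (L.derivWeierstrassP z), ← neg_sub (L.weierstrassP z), mul_neg,
    neg_div_neg_eq]
  ring

lemma dfc_neg (z q : ℂ) : dfc L (-z) (-q) = -dfc L z q := by
  unfold dfc slp
  rw [← neg_add, zeta_neg, zeta_neg, zeta_neg, L.weierstrassP_neg, L.weierstrassP_neg,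
    L.derivWeierstrassP_neg, L.derivWeierstrassP_neg]
  ring

lemma zeta_add {z q : ℂ} (hq : q ∉ L.lattice) (hz : z ∈ U L q) :
    zeta L (z + q) - zeta L z - zeta L q = slp L z q := by
  have hz' : -z ∈ U L q := ⟨neg_notMem L hz.1, by rw [L.weierstrassP_neg]; exact hz.2⟩
  have h1 : dfc L z q = dfc L (-z) q :=
    U_const L hq (f := fun z => dfc L z q) (fun z hz => dfc_deriv L hq hz) hz hz'
  have hq1 : q ∈ U L (-z) := ⟨hq, by rw [L.weierstrassP_neg]; exact hz.2.symm⟩
  have hq2 : -q ∈ U L (-z) :=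
    ⟨neg_notMem L hq, by rw [L.weierstrassP_neg, L.weierstrassP_neg]; exact hz.2.symm⟩
  have h2 : dfc L q (-z) = dfc L (-q) (-z) :=
    U_const L hz'.1 (f := fun w => dfc L w (-z)) (fun w hw => dfc_deriv L hz'.1 hw) hq1 hq2
  have h3 := dfc_neg L q z
  have h4 := dfc_symm L q (-z)
  have h5 := dfc_symm L q z
  have : dfc L z q = 0 := by linear_combination (h1 - h4 + h2 + h3 - h5) / 2
  unfold dfc at this
  linear_combination this

lemma hasDerivAt_serre {z q : ℂ} (hq : q ∉ L.lattice) (hz : z ∈ U L q) :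
    HasDerivAt (serre L q) (slp L z q * serre L q z) z := by
  have h1 := (hasDerivAt_sigma L (add_notMem L hz)).comp_add_const z q
  have h2 := (hasDerivAt_sigma L hz.1).mul_const (sigma L q)
  have h3 := ((hasDerivAt_id z).const_mul (-zeta L q)).cexp
  have hs1 := sigma_ne L hz.1
  have hs2 := sigma_ne L hq
  have h4 := (h1.fun_div h2 (mul_ne_zero hs1 hs2)).fun_mul h3
  refine h4.congr_deriv ?_
  rw [← zeta_add L hq hz]
  unfold serre
  simp only [id]
  field_simp
  ring

lemma tendsto_serre {q : ℂ} (hq : q ∉ L.lattice) :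
    Tendsto (fun z => z * serre L q z) (𝓝[≠] 0) (𝓝 1) := by
  have hs2 := sigma_ne L hq
  have hc : ContinuousAt
      (fun z => sigma L (z + q) / (prd L z * sigma L q) * Complex.exp (-zeta L q * z)) 0 := by
    have h1 := (sigma_diff L).continuous
    have h2 := (prd_diff L).continuous
    refine ContinuousAt.mul (ContinuousAt.div (by fun_prop) (by fun_prop) ?_) (by fun_prop)
    rw [prd_zero, one_mul]; exact hs2
  have h := hc.tendsto.mono_left (nhdsWithin_le_nhds (s := {0}ᶜ))
  simp only [zero_add, prd_zero, one_mul, mul_zero, Complex.exp_zero, mul_one, div_self hs2] at h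
  refine h.congr' ?_
  filter_upwards [self_mem_nhdsWithin] with z hz
  have hz0 : z ≠ 0 := hz
  unfold serre
  rw [sigma_eq L z]
  field_simp

/-- the tangent line at `-q` -/
noncomputable def tng (q m z : ℂ) : ℂ :=
  L.derivWeierstrassP z + L.derivWeierstrassP q + 2 * m * (L.weierstrassP z - L.weierstrassP q)

lemma tendsto_tng (q m : ℂ) : Tendsto (fun z => z ^ 3 * tng L q m z) (𝓝[≠] 0) (𝓝 (-2)) := by
  have h1 := (top_wp L 1).tendsto
  have h2 := tendsto_norm_wp_zero L
  have h0 : Tendsto (fun z : ℂ => z) (𝓝[≠] 0) (𝓝 0) := tendsto_id.mono_left nhdsWithin_le_nhds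
  rw [wp_one_eq] at h1
  rw [wp_zero_eq] at h2
  have h := (h1.add ((h0.pow 3).mul_const (L.derivWeierstrassP q - 2 * m * L.weierstrassP q))).add
    ((h0.mul h2).const_mul (2 * m))
  norm_num [Nat.factorial] at h
  refine h.congr fun z => ?_
  unfold tng
  ring

lemma U_ev (q : ℂ) : ∀ᶠ z in 𝓝[≠] (0 : ℂ), z ∈ U L q := by
  filter_upwards [Wg.wp_inj_near L, Wg.wp_inj_unbdd L ‖L.weierstrassP q‖] with z h1 h2
  exact ⟨h1, fun e => by rw [e] at h2; exact lt_irrefl _ h2⟩

/-- For a flex `q`, the cube of Serre's function is `e^{m z}` times a linear form. -/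
lemma serre_cube {q m : ℂ} (hq : q ∉ L.lattice) (hx : m ^ 2 = 3 * L.weierstrassP q)
    (hy : 2 * m * L.derivWeierstrassP q = 6 * L.weierstrassP q ^ 2 - L.g₂ / 2)
    {p : ℂ} (hp : p ∈ U L q) :
    (Complex.exp (-m / 3 * p) * serre L q p) ^ 3 = -tng L q m p / 2 := by
  have hq2 := L.derivWeierstrassP_sq q hq
  have key : ∀ z ∈ U L q, tng L q m z *
      (-L.derivWeierstrassP z + L.derivWeierstrassP q +
        2 * m * (L.weierstrassP z - L.weierstrassP q)) =
      -4 * (L.weierstrassP z - L.weierstrassP q) ^ 3 := by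
    intro z hz
    have h := L.derivWeierstrassP_sq z hz.1
    unfold tng
    linear_combination hq2 - h + 2 * (L.weierstrassP z - L.weierstrassP q) * hy +
      4 * (L.weierstrassP z - L.weierstrassP q) ^ 2 * hx
  have hne : ∀ z ∈ U L q, tng L q m z ≠ 0 := by
    intro z hz e
    have := key z hz
    rw [e, zero_mul] at this
    exact pow_ne_zero 3 (sub_ne_zero.mpr hz.2) (by linear_combination this / 4)
  set h : ℂ → ℂ := fun z => (Complex.exp (-m / 3 * z) * serre L q z) ^ 3 / tng L q m z with hh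
  have hd : ∀ z ∈ U L q, HasDerivAt h 0 z := by
    intro z hz
    have h1 := ((((hasDerivAt_id z).const_mul (-m / 3)).cexp).fun_mul
      (hasDerivAt_serre L hq hz)).fun_pow 3
    have hP := Wg.wp_inj_hasDeriv L z hz.1
    have hP' := Wg.wp_inj_hasDeriv' L z hz.1
    rw [Wg.wp_inj_ode L z hz.1] at hP'
    have h2 : HasDerivAt (tng L q m) _ z :=
      (hP'.add_const (L.derivWeierstrassP q)).fun_add
        ((hP.sub_const (L.weierstrassP q)).const_mul (2 * m))
    have h3 := h1.fun_div h2 (hne z hz)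
    refine h3.congr_deriv ?_
    have hsq := L.derivWeierstrassP_sq z hz.1
    have hu := sub_ne_zero.mpr hz.2
    have hlog : 6 * L.weierstrassP z ^ 2 - L.g₂ / 2 + 2 * m * L.derivWeierstrassP z =
        (3 * slp L z q - m) * tng L q m z := by
      unfold slp tng
      field_simp
      set X := L.weierstrassP z
      set x := L.weierstrassP q
      set Y := L.derivWeierstrassP z
      set y := L.derivWeierstrassP q
      linear_combination (-3) * hsq + 3 * hq2 + 4 * (X - x) * hy + 4 * (X - x) ^ 2 * hx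
    rw [hlog, div_eq_zero_iff]
    left
    simp only [id]
    ring
  have hlim : Tendsto h (𝓝[≠] 0) (𝓝 (-1 / 2)) := by
    have h0 : Tendsto (fun z : ℂ => Complex.exp (-m / 3 * z)) (𝓝[≠] 0) (𝓝 1) := by
      have : ContinuousAt (fun z : ℂ => Complex.exp (-m / 3 * z)) 0 := by fun_prop
      simpa using this.tendsto.mono_left (nhdsWithin_le_nhds (s := {0}ᶜ))
    have h1 := ((h0.mul (tendsto_serre L hq)).pow 3).div (tendsto_tng L q m) (by norm_num)
    rw [show (-1 / 2 : ℂ) = (1 * 1) ^ 3 / -2 by norm_num]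
    refine h1.congr' ?_
    filter_upwards [self_mem_nhdsWithin] with z hz
    have hz0 : z ≠ 0 := hz
    simp only [hh, Pi.div_apply]
    field_simp
  have hc : Tendsto h (𝓝[≠] 0) (𝓝 (h p)) :=
    tendsto_const_nhds.congr' ((U_ev L q).mono fun z hz => U_const L hq hd hp hz)
  have e := tendsto_nhds_unique hc hlim
  have hn := hne p hp
  simp only [hh] at e
  rw [div_eq_iff hn] at e
  linear_combination e

end Pool.Agent.H368Z.Serre
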