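import Mathlib
import Pool.Agent.H368Z.SerreCube
import Pool.Agent.H368Z.SemiAb

namespace Pool.Agent.H368Z.Serre

open Cardinal

lemma g2_ne (L : PeriodPair) (h3 : L.g₃ = 0) : L.g₂ ≠ 0 := by
  intro h2
  have key : ∀ w ∈ L.lattice, w / 2 ∉ L.lattice → L.weierstrassP (w / 2) = 0 := by
    intro w hw hw2
    have h1 := L.derivWeierstrassP_add_coe (-(w / 2)) ⟨w, hw⟩
    rw [L.derivWeierstrassP_neg, show -(w / 2) + ((⟨w, hw⟩ : L.lattice) : ℂ) = w / 2 by
      simp only; ring] at h1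
    have h0 : L.derivWeierstrassP (w / 2) = 0 := by linear_combination h1 / 2
    have h := L.derivWeierstrassP_sq (w / 2) hw2
    rw [h0, h2, h3] at h
    exact pow_eq_zero_iff (n := 3) (by norm_num) |>.mp (by linear_combination -h / 4)
  have h := Wg.wp_inj L _ _ L.ω₁_div_two_notMem_lattice L.ω₂_div_two_notMem_lattice
    ((key _ L.ω₁_mem_lattice L.ω₁_div_two_notMem_lattice).trans
      (key _ L.ω₂_mem_lattice L.ω₂_div_two_notMem_lattice).symm)
  rcases h with h | h
  · have := (L.mul_ω₁_add_mul_ω₂_mem_lattice (α := 1 / 2) (β := -1 / 2)).mp (by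
      convert h using 1; push_cast; ring)
    norm_num at this
  · have := (L.mul_ω₁_add_mul_ω₂_mem_lattice (α := 1 / 2) (β := 1 / 2)).mp (by
      convert h using 1; push_cast; ring)
    norm_num at this

open SemiAb in
lemma exists_L (g : ℂ) (hg : g ≠ 0) : ∃ L : PeriodPair, L.g₂ = g ∧ L.g₃ = 0 := by
  have h3 : ∀ (a : ℂ) (ha : a ≠ 0), (sq a ha).g₃ = 0 := fun a ha => by
    unfold PeriodPair.g₃
    rw [sq_G6, mul_zero]
  have h0 := g2_ne _ (h3 1 one_ne_zero)
  obtain ⟨a, ha⟩ := IsAlgClosed.exists_pow_nat_eq ((sq 1 one_ne_zero).g₂ / g) (n := 4)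
    (by norm_num)
  have ha0 : a ≠ 0 := by
    rintro rfl
    exact div_ne_zero h0 hg (by rw [← ha]; norm_num)
  refine ⟨sq a ha0, ?_, h3 _ _⟩
  have h := G_scale (sq 1 one_ne_zero) (sq a ha0) a ha0 (fun x => by
    simp only [PeriodPair.mem_lattice, SemiAb.sq]
    constructor
    · rintro ⟨m, n, hmn⟩
      refine ⟨m, n, mul_left_cancel₀ ha0 ?_⟩
      linear_combination hmn
    · rintro ⟨m, n, hmn⟩
      refine ⟨m, n, ?_⟩
      linear_combination a * hmn) 4
  have e : (sq a ha0).g₂ = (a ^ 4)⁻¹ * (sq 1 one_ne_zero).g₂ := by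
    unfold PeriodPair.g₂
    rw [h]; ring
  rw [e, ha]
  field_simp

lemma exists_q (L : PeriodPair) (h3 : L.g₃ = 0) (m : ℂ)
    (h8 : m ^ 8 - 9 / 2 * L.g₂ * m ^ 4 - 27 / 16 * L.g₂ ^ 2 = 0) :
    ∃ q : ℂ, q ∉ L.lattice ∧ m ^ 2 = 3 * L.weierstrassP q ∧
      2 * m * L.derivWeierstrassP q = 6 * L.weierstrassP q ^ 2 - L.g₂ / 2 := by
  obtain ⟨q, hq, hx⟩ := Wg.wp_surj L (m ^ 2 / 3)
  have h := L.derivWeierstrassP_sq q hq
  have hsq : (2 * m * L.derivWeierstrassP q) ^ 2 = (6 * L.weierstrassP q ^ 2 - L.g₂ / 2) ^ 2 := by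
    rw [mul_pow, h, hx, h3]
    linear_combination 4 / 27 * h8
  rcases sq_eq_sq_iff_eq_or_eq_neg.mp hsq with h1 | h1
  · exact ⟨q, hq, by rw [hx]; ring, h1⟩
  · refine ⟨-q, neg_notMem L hq, by rw [L.weierstrassP_neg, hx]; ring, ?_⟩
    rw [L.weierstrassP_neg, L.derivWeierstrassP_neg]
    linear_combination -h1

/-- half slopes of the flex tangents -/
noncomputable def mm : Fin 4 → ℂ :=
  ![1, Complex.I, (1 + Complex.I) * ((√3 : ℝ) - 1) / 2,
    Complex.I * ((1 + Complex.I) * ((√3 : ℝ) - 1) / 2)]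

lemma mm_indep : LinearIndependent ℚ mm := by
  rw [Fintype.linearIndependent_iff]
  intro g hg
  have hre := congrArg Complex.re hg
  have him := congrArg Complex.im hg
  simp [mm, Fin.sum_univ_four] at hre him
  simp only [Rat.smul_def] at hre him
  have hirr : Irrational (√3 : ℝ) := by simpa using Nat.prime_three.irrational_sqrt
  have aux : ∀ a b : ℚ, (a : ℝ) + b * √3 = 0 → b = 0 := by
    intro a b h
    by_contra hb
    have hb' : (b : ℝ) ≠ 0 := by exact_mod_cast hb
    exact hirr ⟨-a / b, by push_cast; field_simp; linarith⟩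
  have h1 : g 2 - g 3 = 0 := aux (2 * g 0 - g 2 + g 3) _ (by push_cast; linarith)
  have h2 : g 2 + g 3 = 0 := aux (2 * g 1 - g 2 - g 3) _ (by push_cast; linarith)
  have h3 : g 2 = 0 := by linarith
  have h4 : g 3 = 0 := by linarith
  rw [h3, h4] at hre him
  simp at hre him
  intro i
  fin_cases i <;> assumption

/-- the invariant -/
noncomputable def gg : ℂ := 4 * (2 * (√3 : ℝ) - 3) / 9

lemma s3 : ((√3 : ℝ) : ℂ) ^ 2 = 3 := by
  rw [← Complex.ofReal_pow, Real.sq_sqrt (by norm_num)]; norm_num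

lemma gg_ne : gg ≠ 0 := by
  intro h
  have h1 : ((√3 : ℝ) : ℂ) = 3 / 2 := by unfold gg at h; linear_combination 9 / 8 * h
  have := s3
  rw [h1] at this
  norm_num at this

lemma mm_oct (k : Fin 4) : mm k ^ 8 - 9 / 2 * gg * mm k ^ 4 - 27 / 16 * gg ^ 2 = 0 := by
  have hs := s3
  have hI4 : Complex.I ^ 4 = 1 := Complex.I_pow_four
  have hr : ((1 + Complex.I) * ((√3 : ℝ) - 1) / 2) ^ 4 = 4 * (√3 : ℝ) - 7 := by
    have h1 : (1 + Complex.I) ^ 4 = -4 := by
      have : (1 + Complex.I) ^ 2 = 2 * Complex.I := by linear_combination Complex.I_sq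
      rw [show 4 = 2 * 2 by rfl, pow_mul, this]
      linear_combination 4 * Complex.I_sq
    rw [div_pow, mul_pow, h1]
    generalize ((√3 : ℝ) : ℂ) = s at hs ⊢
    linear_combination (-(s ^ 2 - 4 * s + 9) / 4) * hs
  have h4 : mm k ^ 4 = 1 ∨ mm k ^ 4 = 4 * (√3 : ℝ) - 7 := by
    fin_cases k
    · left; simp [mm]
    · left; simp [mm]
    · right; exact hr
    · right
      change (Complex.I * _) ^ 4 = _
      rw [mul_pow, hI4, one_mul, hr]
  rw [show mm k ^ 8 = (mm k ^ 4) ^ 2 by ring]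
  unfold gg
  generalize ((√3 : ℝ) : ℂ) = s at hs h4 ⊢
  rcases h4 with h | h <;> rw [h]
  · linear_combination (-4 / 3) * hs
  · linear_combination (-4 / 3) * hs

lemma alg_facts : IsAlgebraic ℚ gg ∧ ∀ k, IsAlgebraic ℚ (mm k) := by
  set A := algebraicClosure ℚ ℂ
  have hA : ∀ x : ℂ, x ∈ A ↔ IsAlgebraic ℚ x := fun x => mem_algebraicClosure_iff
  have hn : ∀ n : ℕ, (n : ℂ) ∈ A := fun n => A.natCast_mem n
  have hs : ((√3 : ℝ) : ℂ) ∈ A := (hA _).mpr (IsAlgebraic.of_pow (n := 2) (by norm_num) (by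
    rw [s3]; exact (hA _).mp (by exact_mod_cast hn 3)))
  have hI : Complex.I ∈ A := (hA _).mpr (IsAlgebraic.of_pow (n := 4) (by norm_num) (by
    rw [Complex.I_pow_four]; exact isAlgebraic_one))
  have hr : (1 + Complex.I) * ((√3 : ℝ) - 1) / 2 ∈ A :=
    A.div_mem (A.mul_mem (A.add_mem A.one_mem hI) (A.sub_mem hs A.one_mem))
      (by exact_mod_cast hn 2)
  refine ⟨(hA _).mp ?_, fun k => (hA _).mp ?_⟩
  · exact A.div_mem (A.mul_mem (by exact_mod_cast hn 4) (A.sub_mem
      (A.mul_mem (by exact_mod_cast hn 2) hs) (by exact_mod_cast hn 3))) (by exact_mod_cast hn 9)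
  · fin_cases k
    · exact A.one_mem
    · exact hI
    · exact hr
    · exact A.mul_mem hI hr

lemma exists_p {s : ℕ} (T B : Set ℂ) (hT : T.Finite) (hB : B.Countable) (c : Fin s → ℂ)
    (hc : LinearIndependent ℚ c) :
    ∃ p : ℂ, p ∉ B ∧ Module.finrank ℚ (Submodule.span ℚ (Set.range fun k =>
      (Submodule.span ℚ T).mkQ (c k * p))) = s := by
  set V := Submodule.span ℚ T with hV
  have hVc : (V : Set ℂ).Countable := by
    have : Module.Finite ℚ V := Module.Finite.span_of_finite ℚ hT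
    have : Countable V := Finsupp.Countable.of_moduleFinite (R := ℚ)
    exact Set.countable_coe_iff.mp this
  have hbad : (B ∪ ⋃ m : Fin s → ℚ, (fun v => v / ∑ k, m k • c k) '' (V : Set ℂ)).Countable :=
    hB.union (Set.countable_iUnion fun m => hVc.image _)
  obtain ⟨p, hp⟩ : ∃ p : ℂ, p ∉ (B ∪
      ⋃ m : Fin s → ℚ, (fun v => v / ∑ k, m k • c k) '' (V : Set ℂ)) := by
    by_contra h
    push Not at h
    exact not_countable_complex (hbad.mono fun x _ => h x)
  rw [Set.mem_union, not_or] at hp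
  refine ⟨p, hp.1, ?_⟩
  have hli : LinearIndependent ℚ fun k => V.mkQ (c k * p) := by
    rw [Fintype.linearIndependent_iff]
    intro m hm
    have h1 : (∑ k, m k • c k) * p ∈ V := by
      rw [← Submodule.Quotient.mk_eq_zero, ← V.mkQ_apply, ← hm, Finset.sum_mul, map_sum]
      refine Finset.sum_congr rfl fun k _ => ?_
      rw [← map_smul]; simp
    by_cases h0 : ∑ k, m k • c k = 0
    · exact Fintype.linearIndependent_iff.mp hc m h0
    · exfalso
      refine hp.2 (Set.mem_iUnion.mpr ⟨m, _, h1, ?_⟩)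
      field_simp
  rw [finrank_span_eq_card hli, Fintype.card_fin]

lemma trdeg_le_three {K : Type} [Field K] [Algebra K ℂ] (a b c : ℂ) (F : IntermediateField K ℂ)
    (hF : ∀ x ∈ F, IsAlgebraic (IntermediateField.adjoin K ({a, b, c} : Set ℂ)) x) :
    Algebra.trdeg K F ≤ 3 := by
  set S : Set ℂ := {a, b, c} with hS
  set M := IntermediateField.adjoin K S with hM
  set N := (algebraicClosure M ℂ).restrictScalars K with hN
  have hle : F ≤ N := fun x hx =>
    (IntermediateField.mem_restrictScalars K).mpr (mem_algebraicClosure_iff.mpr (hF x hx))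
  have h1 : Algebra.trdeg K F ≤ Algebra.trdeg K N :=
    trdeg_le_of_injective (IntermediateField.inclusion hle)
      (IntermediateField.inclusion_injective hle)
  have h4 : Algebra.trdeg K M + Algebra.trdeg M (algebraicClosure M ℂ) =
      Algebra.trdeg K (algebraicClosure M ℂ) := trdeg_add_eq K M
  have h5 : Algebra.trdeg M (algebraicClosure M ℂ) = 0 := trdeg_eq_zero
  have h6 : Algebra.trdeg K M ≤ 3 := by
    have : Algebra.trdeg K M ≤ #(((↑) : M → ℂ) ⁻¹' S) := by
      have htop : IntermediateField.adjoin K (((↑) : M → ℂ) ⁻¹' S) = ⊤ := by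
        rw [← IntermediateField.lift_inj, IntermediateField.lift_top,
          IntermediateField.lift_adjoin, Set.image_preimage_eq_of_subset]
        intro x hx
        exact ⟨⟨x, IntermediateField.subset_adjoin _ _ hx⟩, rfl⟩
      have : Algebra.IsAlgebraic (Algebra.adjoin K (((↑) : M → ℂ) ⁻¹' S)) M := by
        refine ⟨fun x => IntermediateField.isAlgebraic_adjoin_iff.mp ?_⟩
        exact isAlgebraic_algebraMap
          (⟨x, htop ▸ IntermediateField.mem_top⟩ :
            IntermediateField.adjoin K (((↑) : M → ℂ) ⁻¹' S))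
      exact Algebra.IsAlgebraic.trdeg_le_cardinalMk K _
    refine this.trans ((mk_preimage_of_injective _ _ Subtype.val_injective).trans ?_)
    rw [hS]
    refine (mk_insert_le).trans ?_
    have := mk_insert_le (s := ({c} : Set ℂ)) (a := b)
    rw [mk_singleton] at this
    calc _ ≤ (1 + 1) + 1 := add_le_add_left this 1
      _ = 3 := by norm_num
  rw [h5, add_zero] at h4
  exact h1.trans ((le_of_eq h4.symm).trans h6)

lemma trdeg_le {s : ℕ} (L : PeriodPair) (h2 : IsAlgebraic ℚ L.g₂) (h3 : IsAlgebraic ℚ L.g₃)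
    (q m : Fin s → ℂ) (hm : ∀ k, IsAlgebraic ℚ (m k))
    (hqx : ∀ k, IsAlgebraic ℚ (L.weierstrassP (q k)))
    (hqy : ∀ k, IsAlgebraic ℚ (L.derivWeierstrassP (q k))) (p : ℂ) (hp : p ∉ L.lattice)
    (hcube : ∀ k, (Complex.exp (-m k / 3 * p) * serre L (q k) p) ^ 3 = -tng L (q k) (m k) p / 2) :
    Algebra.trdeg (periodField L q) (pointField L q (fun k => -m k / 3 * p) p) ≤ 3 := by
  set K := periodField L q with hK
  have hmem : ∀ x : ℂ, IsAlgebraic ℚ x → x ∈ K := fun x hx =>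
    IntermediateField.subset_adjoin _ _ (Or.inl (Or.inl hx))
  refine trdeg_le_three (L.weierstrassP p) p (zeta L p) _ ?_
  set S : Set ℂ := {L.weierstrassP p, p, zeta L p} with hS
  set M := IntermediateField.adjoin K S with hM
  set N := (algebraicClosure M ℂ).restrictScalars K with hN
  have hN' : ∀ x : ℂ, x ∈ N ↔ IsAlgebraic M x := fun x =>
    (IntermediateField.mem_restrictScalars K).trans mem_algebraicClosure_iff
  have hMN : ∀ x ∈ M, x ∈ N := fun x hx => (hN' x).mpr (isAlgebraic_algebraMap (⟨x, hx⟩ : M))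
  have hKN : ∀ x : ℂ, IsAlgebraic ℚ x → x ∈ N := fun x hx => N.algebraMap_mem ⟨x, hmem x hx⟩
  have hn : ∀ n : ℕ, (n : ℂ) ∈ N := fun n => N.natCast_mem n
  have hP : L.weierstrassP p ∈ N := hMN _ (IntermediateField.subset_adjoin _ _ (by simp [hS]))
  have hpM : p ∈ N := hMN _ (IntermediateField.subset_adjoin _ _ (by simp [hS]))
  have hz : zeta L p ∈ N := hMN _ (IntermediateField.subset_adjoin _ _ (by simp [hS]))
  have hP' : L.derivWeierstrassP p ∈ N := by
    refine (hN' _).mpr (IsAlgebraic.of_pow (n := 2) (by norm_num) ((hN' _).mp ?_))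
    rw [L.derivWeierstrassP_sq p hp]
    exact N.sub_mem (N.sub_mem (N.mul_mem (by exact_mod_cast hn 4) (N.pow_mem hP 3))
      (N.mul_mem (hKN _ h2) hP)) (hKN _ h3)
  have hle : pointField L q (fun k => -m k / 3 * p) p ≤ N := by
    unfold pointField
    rw [IntermediateField.adjoin_le_iff]
    rintro x ((hx | ⟨k, rfl⟩) | ⟨k, rfl⟩)
    · simp only [Set.mem_insert_iff, Set.mem_singleton_iff] at hx
      rcases hx with rfl | rfl | rfl | rfl
      · exact hP
      · exact hP'
      · exact hpM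
      · exact hz
    · refine (hN' _).mpr (IsAlgebraic.of_pow (n := 3) (by norm_num) ((hN' _).mp ?_))
      rw [hcube]
      exact N.div_mem (N.neg_mem (N.add_mem (N.add_mem hP' (hKN _ (hqy k))) (N.mul_mem
        (N.mul_mem (by exact_mod_cast hn 2) (hKN _ (hm k))) (N.sub_mem hP (hKN _ (hqx k))))))
        (by exact_mod_cast hn 2)
    · exact N.mul_mem (N.div_mem (N.neg_mem (hKN _ (hm k))) (by exact_mod_cast hn 3)) hpM
  exact fun x hx => (hN' x).mp (hle hx)

theorem main : ∃ (L : PeriodPair) (q t : Fin 4 → ℂ) (p : ℂ),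
    IsAlgebraic ℚ L.g₂ ∧ IsAlgebraic ℚ L.g₃ ∧
    (∀ k, q k ∉ L.lattice ∧ IsAlgebraic ℚ (L.weierstrassP (q k)) ∧
      IsAlgebraic ℚ (L.derivWeierstrassP (q k))) ∧
    p ∉ L.lattice ∧ (∀ k, p + q k ∉ L.lattice) ∧
    Algebra.trdeg (periodField L q) (pointField L q t p) ≤ 3 ∧ tdim L q t = 4 := by
  obtain ⟨L, h2, h3⟩ := exists_L gg gg_ne
  have hm0 : ∀ k, mm k ≠ 0 := mm_indep.ne_zero
  choose q hq hx hy using fun k => exists_q L h3 (mm k) (by rw [h2]; exact mm_oct k)
  obtain ⟨hg, hm⟩ := alg_facts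
  have hc : LinearIndependent ℚ fun k => -mm k / 3 := by
    rw [Fintype.linearIndependent_iff]
    intro g hg
    refine Fintype.linearIndependent_iff.mp mm_indep g ?_
    have : ∑ i, g i • mm i = -3 * ∑ i, g i • (-mm i / 3) := by
      rw [Finset.mul_sum]
      refine Finset.sum_congr rfl fun i _ => ?_
      simp only [Rat.smul_def]; ring
    rw [this, hg, mul_zero]
  obtain ⟨p, hp, ht⟩ := exists_p (thirdPeriods L q) (⋃ k, (U L (q k))ᶜ)
    (((Set.finite_singleton _).union (Set.finite_range _)).union (Set.finite_range _))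
    (Set.countable_iUnion fun k => U_compl_countable L (hq k)) _ hc
  have hpU : ∀ k, p ∈ U L (q k) := fun k => by
    by_contra h
    exact hp (Set.mem_iUnion.mpr ⟨k, h⟩)
  set A := algebraicClosure ℚ ℂ
  have hA : ∀ x : ℂ, x ∈ A ↔ IsAlgebraic ℚ x := fun x => mem_algebraicClosure_iff
  have hn : ∀ n : ℕ, (n : ℂ) ∈ A := fun n => A.natCast_mem n
  have hqx : ∀ k, L.weierstrassP (q k) ∈ A := fun k => by
    rw [show L.weierstrassP (q k) = mm k ^ 2 / 3 by linear_combination -hx k / 3]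
    exact A.div_mem (A.pow_mem ((hA _).mpr (hm k)) 2) (by exact_mod_cast hn 3)
  have hqy : ∀ k, L.derivWeierstrassP (q k) ∈ A := fun k => by
    have := hm0 k
    rw [show L.derivWeierstrassP (q k) = (6 * L.weierstrassP (q k) ^ 2 - L.g₂ / 2) / (2 * mm k) by
      rw [← hy k]; field_simp]
    exact A.div_mem (A.sub_mem (A.mul_mem (by exact_mod_cast hn 6) (A.pow_mem (hqx k) 2))
      (A.div_mem ((hA _).mpr (h2 ▸ hg)) (by exact_mod_cast hn 2)))
      (A.mul_mem (by exact_mod_cast hn 2) ((hA _).mpr (hm k)))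
  have h2' : IsAlgebraic ℚ L.g₂ := h2 ▸ hg
  have h3' : IsAlgebraic ℚ L.g₃ := h3 ▸ isAlgebraic_zero
  exact ⟨L, q, fun k => -mm k / 3 * p, p, h2', h3',
    fun k => ⟨hq k, (hA _).mp (hqx k), (hA _).mp (hqy k)⟩, (hpU 0).1,
    fun k => add_notMem L (hpU k),
    trdeg_le L h2' h3' q mm hm (fun k => (hA _).mp (hqx k)) (fun k => (hA _).mp (hqy k)) p
      (hpU 0).1 (fun k => serre_cube L (hq k) (hx k) (hy k) (hpU k)), ht⟩

end Pool.Agent.H368Z.Serre
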